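import Mathlib

/-!
# Two cyclic numbers between consecutive squares: common definitions (MP_1181b9_nt)

Notation of the proof: `n` is the root, the interval is `n ^ 2 < m < (n + 1) ^ 2`, `z` is the
level of the sieve, `p` a prime `> z`.  A non-cyclic number `m` of the interval without prime
factors `≤ z` is divisible by `p ^ 2` or is of the form `m = p * k * (1 + p * j)`.
-/

set_option autoImplicit false

namespace Pool.Agent.Helper9.TC

/-- Cyclic numbers: every group of order `m` is cyclic iff `gcd (m, φ m) = 1` (Szele). -/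
def Cyc (m : ℕ) : Prop := 0 < m ∧ Nat.Coprime m (Nat.totient m)

/-- The assertion of the problem for the root `n`. -/
def TwoCyc (n : ℕ) : Prop :=
  ∃ c c' : ℕ, Cyc c ∧ Cyc c' ∧ n ^ 2 < c ∧ c < c' ∧ c' < (n + 1) ^ 2

/-- All prime factors of `m` are larger than `z`. -/
def Rough (z m : ℕ) : Prop := ∀ p : ℕ, p.Prime → p ∣ m → z < p

/-- `(k, j)` is a hit for the prime `p`: the number `p * k * (1 + p * j)` lies in the interval,
`k` is `z`-rough and `j` is even. -/
def Hit (z n p k j : ℕ) : Prop :=
  0 < k ∧ 0 < j ∧ Even j ∧ Rough z k ∧ n ^ 2 < p * k * (1 + p * j) ∧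
    p * k * (1 + p * j) < (n + 1) ^ 2

open Classical in
/-- The finite set of hits of `p`. -/
noncomputable def hits (z n p : ℕ) : Finset (ℕ × ℕ) :=
  ((Finset.range ((n + 1) ^ 2)) ×ˢ (Finset.range ((n + 1) ^ 2))).filter
    (fun x => Hit z n p x.1 x.2)

open Classical in
/-- The primes in `(a, b]`. -/
noncomputable def primesIoc (a b : ℕ) : Finset ℕ := (Finset.Ioc a b).filter Nat.Prime

open Classical in
/-- The `z`-rough numbers of the interval. -/
noncomputable def roughSet (z n : ℕ) : Finset ℕ :=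
  (Finset.Ioo (n ^ 2) ((n + 1) ^ 2)).filter (Rough z)

/-- `∏ (1 - 1 / p)` over the primes `p ≤ y`. -/
noncomputable def V (y : ℕ) : ℝ := ∏ p ∈ primesIoc 1 y, (1 - 1 / (p : ℝ))

/-- `∑ 1 / p` over the primes `y < p ≤ z`. -/
noncomputable def S (y z : ℕ) : ℝ := ∑ p ∈ primesIoc y z, 1 / (p : ℝ)

end Pool.Agent.Helper9.TC
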