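import Pool.Agent.Helper82.TC.Legendre
import Pool.Agent.Helper14.TC.Rough
import Pool.Agent.Helper27.TC.Q
import Pool.Agent.Helper94.TC.Num

/-!
# Blocks of the proof of MP_1181b9_nt (names collected in one namespace)
-/

set_option autoImplicit false

namespace Pool.Agent.Helper9.TC

alias roughSet_lower := Pool.Agent.Helper82.TC.roughSet_lower
alias hits_TT := Pool.Agent.Helper14.TC.hits_TT
alias hits_pairs := Pool.Agent.Helper27.TC.hits_pairs
alias squares := Pool.Agent.Helper27.TC.squares
alias noncyclic_le := Pool.Agent.Helper27.TC.noncyclic_le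
alias sum15_closed := Pool.Agent.Helper94.TC.sum15_closed
alias sum2_closed := Pool.Agent.Helper94.TC.sum2_closed
alias sum15_9 := Pool.Agent.Helper94.TC.sum15_9
alias sum15_10 := Pool.Agent.Helper94.TC.sum15_10
alias sum15_11 := Pool.Agent.Helper94.TC.sum15_11
alias sum15_12 := Pool.Agent.Helper94.TC.sum15_12
alias card_primes_pow := Pool.Agent.Helper94.TC.card_primes_pow
alias V_pow := Pool.Agent.Helper94.TC.V_pow
alias num23 := Pool.Agent.Helper94.TC.num23
alias num31 := Pool.Agent.Helper94.TC.num31
alias num47 := Pool.Agent.Helper94.TC.num47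
alias num89 := Pool.Agent.Helper94.TC.num89
alias num997 := Pool.Agent.Helper94.TC.num997

end Pool.Agent.Helper9.TC
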