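import Pool.Agent.Helper9.TC.Blocks

/-!
# Master inequality for MP_1181b9_nt
-/

set_option autoImplicit false
open Finset Real

namespace Pool.Agent.Helper9.TC

lemma mem_primesIoc {a b p : ℕ} : p ∈ primesIoc a b ↔ (a < p ∧ p ≤ b) ∧ p.Prime := by
  classical
  simp [primesIoc]

lemma card_primesIoc_le (a b : ℕ) (ha : 2 ≤ a) : ((primesIoc a b).card : ℝ) ≤ (b : ℝ) / 2 := by
  have h : (primesIoc a b).card ≤ (Finset.Icc 1 ((b - 1) / 2)).card := by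
    refine Finset.card_le_card_of_injOn (fun p => p / 2) ?_ ?_
    · intro p hp
      have hp' := mem_primesIoc.1 (Finset.mem_coe.1 hp)
      have hodd : p % 2 = 1 := by
        rcases hp'.2.eq_two_or_odd with h | h
        · omega
        · exact h
      simp only [Finset.coe_Icc, Set.mem_Icc]
      omega
    · intro p hp q hq hpq
      have hp' := mem_primesIoc.1 (Finset.mem_coe.1 hp)
      have hq' := mem_primesIoc.1 (Finset.mem_coe.1 hq)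
      have h1 : p % 2 = 1 := by
        rcases hp'.2.eq_two_or_odd with h | h
        · omega
        · exact h
      have h2 : q % 2 = 1 := by
        rcases hq'.2.eq_two_or_odd with h | h
        · omega
        · exact h
      simp only at hpq
      omega
  rw [Nat.card_Icc] at h
  have h2 : 2 * (primesIoc a b).card ≤ b := by omega
  have h3 : (2 * (primesIoc a b).card : ℝ) ≤ b := by exact_mod_cast h2
  linarith

lemma primesIoc_union (a b c : ℕ) (hab : a ≤ b) (hbc : b ≤ c) (f : ℕ → ℝ) :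
    ∑ p ∈ primesIoc a c, f p = ∑ p ∈ primesIoc a b, f p + ∑ p ∈ primesIoc b c, f p := by
  rw [← Finset.sum_union]
  · congr 1
    ext p
    simp only [Finset.mem_union, mem_primesIoc]
    constructor
    · rintro ⟨⟨h1, h2⟩, h3⟩
      rcases le_or_gt p b with h | h
      · exact Or.inl ⟨⟨h1, h⟩, h3⟩
      · exact Or.inr ⟨⟨h, h2⟩, h3⟩
    · rintro (⟨⟨h1, h2⟩, h3⟩ | ⟨⟨h1, h2⟩, h3⟩)
      · exact ⟨⟨h1, by omega⟩, h3⟩
      · exact ⟨⟨by omega, h2⟩, h3⟩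
  · rw [Finset.disjoint_left]
    intro p hp hq
    have h1 := mem_primesIoc.1 hp
    have h2 := mem_primesIoc.1 hq
    omega

open Classical in
lemma twoCyc_of_card (z n : ℕ) (h : 2 ≤ ((roughSet z n).filter Cyc).card) : TwoCyc n := by
  obtain ⟨a, ha, b, hb, hab⟩ := Finset.one_lt_card.1 (lt_of_lt_of_le one_lt_two h)
  have ha' := Finset.mem_filter.1 ha
  have hb' := Finset.mem_filter.1 hb
  have ha2 : a ∈ Finset.Ioo (n ^ 2) ((n + 1) ^ 2) := (Finset.mem_filter.1 ha'.1).1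
  have hb2 : b ∈ Finset.Ioo (n ^ 2) ((n + 1) ^ 2) := (Finset.mem_filter.1 hb'.1).1
  rw [Finset.mem_Ioo] at ha2 hb2
  rcases lt_or_gt_of_ne hab with h1 | h1
  · exact ⟨a, b, ha'.2, hb'.2, ha2.1, h1, hb2.2⟩
  · exact ⟨b, a, hb'.2, ha'.2, hb2.1, h1, ha2.2⟩

/-- The master inequality. -/
theorem master (y z n P1 M : ℕ) (b2 H : ℝ) (hy : 2 ≤ y) (hyz : y ≤ z) (hn : 1 ≤ n)
    (hP1 : z ≤ P1) (hM : n + 1 ≤ M)
    (hb2 : ∀ M, ∑ p ∈ primesIoc z M, 1 / (p : ℝ) ^ 2 ≤ b2)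
    (hH : ∑ p ∈ primesIoc z M, ((hits z n p).card : ℝ) ≤ H)
    (hfin : 2 ≤ (2 * (n : ℝ) + 1) * V y * (1 - S y z) -
      (1 + ((primesIoc y z).card : ℝ)) * 2 ^ ((primesIoc 1 y).card - 1) -
      ((2 * (n : ℝ) + 1) / 2 * b2 + (P1 : ℝ) / 2 + ((n : ℝ) + 1) ^ 2 / (2 * (P1 : ℝ) ^ 2) + 1) -
      H) : TwoCyc n := by
  classical
  have h1 := roughSet_lower y z n hy hyz
  have h2 := squares z n P1 (hy.trans hyz) hn hP1
  have h3 := noncyclic_le z n M (hy.trans hyz) hM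
  have h4 := card_primesIoc_le z P1 (hy.trans hyz)
  have h5 := hb2 P1
  have h6 : ((roughSet z n).filter Cyc).card + ((roughSet z n).filter (fun m => ¬ Cyc m)).card =
      (roughSet z n).card := Finset.card_filter_add_card_filter_not _
  apply twoCyc_of_card z n
  have h7 : (((roughSet z n).filter (fun m => ¬ Cyc m)).card : ℝ) ≤
      (((roughSet z n).filter
        (fun m => ∃ p : ℕ, p.Prime ∧ z < p ∧ p ^ 2 ∣ m)).card : ℝ) +
      ∑ p ∈ primesIoc z M, ((hits z n p).card : ℝ) := by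
    exact_mod_cast h3
  have h8 : (((roughSet z n).filter Cyc).card : ℝ) +
      (((roughSet z n).filter (fun m => ¬ Cyc m)).card : ℝ) = ((roughSet z n).card : ℝ) := by
    exact_mod_cast h6
  have h9 : (2 * (n : ℝ) + 1) / 2 * (∑ p ∈ primesIoc z P1, 1 / (p : ℝ) ^ 2) ≤
      (2 * (n : ℝ) + 1) / 2 * b2 := by
    apply mul_le_mul_of_nonneg_left h5
    positivity
  have h10 : (2 : ℝ) ≤ (((roughSet z n).filter Cyc).card : ℝ) := by linarith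
  exact_mod_cast h10

/-- Sum of the estimate TT over the primes of `(p0, P2]`. -/
theorem TT_sum (z n r p0 P2 : ℕ) (b15 b2 cl : ℝ) (hz : 2 ≤ z) (hn : 1 ≤ n) (hp0 : z ≤ p0)
    (hr : ((n : ℝ) + 1) ^ 2 ≤ ((z : ℝ) + 1) ^ (r + 1) * ((p0 : ℝ) + 1) ^ 2)
    (h15 : ∀ M, ∑ p ∈ primesIoc p0 M, 1 / ((p : ℝ) * √p) ≤ b15)
    (h2 : ∀ M, ∑ p ∈ primesIoc p0 M, 1 / (p : ℝ) ^ 2 ≤ b2)
    (hcl : Real.log (1 + √((2 : ℝ) ^ r) * ((n : ℝ) + 1) ^ 2 / (2 * n * (p0 * √p0))) ≤ cl) :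
    ∑ p ∈ primesIoc p0 P2, ((hits z n p).card : ℝ) ≤
      √((2 : ℝ) ^ r) * (((n : ℝ) + 1) ^ 2 / n) * b15 +
      2 ^ r * ((2 * (n : ℝ) + 1) / 2 * b2 + (P2 : ℝ) / 2) +
      (2 * (n : ℝ) + 1) / 4 * b2 * (1 + cl) := by
  have hn0 : (0 : ℝ) < n := by exact_mod_cast hn
  have hp0r : (2 : ℝ) ≤ p0 := by exact_mod_cast hz.trans hp0
  have hcl0 : 0 ≤ cl := by
    refine le_trans (Real.log_nonneg ?_) hcl
    have : 0 ≤ √((2 : ℝ) ^ r) * ((n : ℝ) + 1) ^ 2 / (2 * n * (p0 * √p0)) := by positivity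
    linarith
  have hb : ∀ p ∈ primesIoc p0 P2, ((hits z n p).card : ℝ) ≤
      √((2 : ℝ) ^ r) * (((n : ℝ) + 1) ^ 2 / n) * (1 / ((p : ℝ) * √p)) +
      (2 ^ r * (2 * (n : ℝ) + 1) / 2 + (2 * (n : ℝ) + 1) / 4 * (1 + cl)) * (1 / (p : ℝ) ^ 2) +
      2 ^ r := by
    intro p hp
    have hp' := mem_primesIoc.1 hp
    have hpp : (p0 : ℝ) + 1 ≤ p := by exact_mod_cast hp'.1.1
    have hppos : (0 : ℝ) < p := by linarith
    have hsq : 0 < √(p : ℝ) := Real.sqrt_pos.2 hppos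
    have hlog : Real.log (1 + √((2 : ℝ) ^ r) * ((n : ℝ) + 1) ^ 2 / (2 * n * (p * √p))) ≤ cl := by
      refine le_trans (Real.log_le_log (by positivity) ?_) hcl
      have : (p0 : ℝ) * √p0 ≤ p * √p := by
        apply mul_le_mul (by linarith) (Real.sqrt_le_sqrt (by linarith)) (by positivity)
          hppos.le
      have hp00 : 0 < (p0 : ℝ) * √p0 := by positivity
      gcongr
    have hT := hits_TT z n p r hz hn (by omega) (by
      rw [div_le_iff₀ (by positivity)]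
      refine le_trans hr ?_
      gcongr)
    refine le_trans hT ?_
    have e1 : √((2 : ℝ) ^ r) * (((n : ℝ) + 1) ^ 2 / n) / (p * √p) =
        √((2 : ℝ) ^ r) * (((n : ℝ) + 1) ^ 2 / n) * (1 / ((p : ℝ) * √p)) := by
      field_simp
    have e2 : 2 ^ r * ((2 * (n : ℝ) + 1) / (2 * (p : ℝ) ^ 2) + 1) =
        2 ^ r * (2 * (n : ℝ) + 1) / 2 * (1 / (p : ℝ) ^ 2) + 2 ^ r := by
      field_simp
    have e3 : (2 * (n : ℝ) + 1) / (4 * (p : ℝ) ^ 2) *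
        (1 + Real.log (1 + √((2 : ℝ) ^ r) * ((n : ℝ) + 1) ^ 2 / (2 * n * (p * √p)))) ≤
        (2 * (n : ℝ) + 1) / 4 * (1 + cl) * (1 / (p : ℝ) ^ 2) := by
      have : (2 * (n : ℝ) + 1) / 4 * (1 + cl) * (1 / (p : ℝ) ^ 2) =
        (2 * (n : ℝ) + 1) / (4 * (p : ℝ) ^ 2) * (1 + cl) := by field_simp
      rw [this]
      apply mul_le_mul_of_nonneg_left (by linarith)
      positivity
    rw [e1, e2]
    linarith
  refine le_trans (Finset.sum_le_sum hb) ?_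
  rw [Finset.sum_add_distrib, Finset.sum_add_distrib, ← Finset.mul_sum, ← Finset.mul_sum,
    Finset.sum_const, nsmul_eq_mul]
  have h3 := h15 P2
  have h4 := h2 P2
  have h5 := card_primesIoc_le p0 P2 (hz.trans hp0)
  have k1 : √((2 : ℝ) ^ r) * (((n : ℝ) + 1) ^ 2 / n) *
      ∑ p ∈ primesIoc p0 P2, 1 / ((p : ℝ) * √p) ≤
      √((2 : ℝ) ^ r) * (((n : ℝ) + 1) ^ 2 / n) * b15 :=
    mul_le_mul_of_nonneg_left h3 (by positivity)
  have k2 : (2 ^ r * (2 * (n : ℝ) + 1) / 2 + (2 * (n : ℝ) + 1) / 4 * (1 + cl)) *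
      ∑ p ∈ primesIoc p0 P2, 1 / (p : ℝ) ^ 2 ≤
      (2 ^ r * (2 * (n : ℝ) + 1) / 2 + (2 * (n : ℝ) + 1) / 4 * (1 + cl)) * b2 :=
    mul_le_mul_of_nonneg_left h4 (by positivity)
  have k3 : ((primesIoc p0 P2).card : ℝ) * 2 ^ r ≤ (P2 : ℝ) / 2 * 2 ^ r :=
    mul_le_mul_of_nonneg_right h5 (by positivity)
  calc _ ≤ √((2 : ℝ) ^ r) * (((n : ℝ) + 1) ^ 2 / n) * b15 +
      (2 ^ r * (2 * (n : ℝ) + 1) / 2 + (2 * (n : ℝ) + 1) / 4 * (1 + cl)) * b2 +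
      (P2 : ℝ) / 2 * 2 ^ r := by linarith
    _ = _ := by ring

/-- Regime without T2. -/
theorem regimeA (y z n r rp P1 P2 : ℕ) (b15 b2 cl : ℝ) (hy : 2 ≤ y) (hyz : y ≤ z) (hn : 1 ≤ n)
    (hP1 : z ≤ P1) (hP2 : z ≤ P2)
    (h15 : ∀ M, ∑ p ∈ primesIoc z M, 1 / ((p : ℝ) * √p) ≤ b15)
    (hb2 : ∀ M, ∑ p ∈ primesIoc z M, 1 / (p : ℝ) ^ 2 ≤ b2)
    (hr : ((n : ℝ) + 1) ^ 2 ≤ ((z : ℝ) + 1) ^ (r + 3))
    (hrp : ((n : ℝ) + 1) ^ 2 ≤ ((z : ℝ) + 1) ^ (rp + 1) * (P2 : ℝ) ^ 2)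
    (hcl : Real.log (1 + √((2 : ℝ) ^ r) * ((n : ℝ) + 1) ^ 2 / (2 * n * (z * √z))) ≤ cl)
    (hfin : 2 ≤ (2 * (n : ℝ) + 1) * V y * (1 - S y z) -
      (1 + ((primesIoc y z).card : ℝ)) * 2 ^ ((primesIoc 1 y).card - 1) -
      ((2 * (n : ℝ) + 1) / 2 * b2 + (P1 : ℝ) / 2 + ((n : ℝ) + 1) ^ 2 / (2 * (P1 : ℝ) ^ 2) + 1) -
      ((√((2 : ℝ) ^ r) * (((n : ℝ) + 1) ^ 2 / n) * b15 +
      2 ^ r * ((2 * (n : ℝ) + 1) / 2 * b2 + (P2 : ℝ) / 2) +
      (2 * (n : ℝ) + 1) / 4 * b2 * (1 + cl)) +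
      2 ^ rp * (((n : ℝ) + 1) ^ 2 / (2 * (P2 : ℝ) ^ 2)))) : TwoCyc n := by
  have hz : 2 ≤ z := hy.trans hyz
  have hP2r : (0 : ℝ) < P2 := by
    have : 0 < P2 := by omega
    exact_mod_cast this
  refine master y z n P1 (max (n + 1) P2) b2 _ hy hyz hn hP1 (le_max_left _ _) hb2 ?_ hfin
  rw [primesIoc_union z P2 (max (n + 1) P2) hP2 (le_max_right _ _)]
  refine add_le_add ?_ ?_
  · refine TT_sum z n r z P2 b15 b2 cl hz hn le_rfl ?_ h15 hb2 hcl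
    calc ((n : ℝ) + 1) ^ 2 ≤ ((z : ℝ) + 1) ^ (r + 3) := hr
      _ = ((z : ℝ) + 1) ^ (r + 1) * ((z : ℝ) + 1) ^ 2 := by ring
  · refine hits_pairs z n P2 rp _ hz hn hP2 ?_
    rw [div_le_iff₀ (by positivity)]
    exact hrp

end Pool.Agent.Helper9.TC
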