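import Pool.Agent.Helper9.TC.Master

/-!
# Numerical regimes for MP_1181b9_nt
-/

set_option autoImplicit false
open Finset Real

namespace Pool.Agent.Helper9.TC

lemma S_nonneg (y z : ℕ) : 0 ≤ S y z := by
  unfold S
  positivity

theorem regimeA_num (y z a b r rp P1 P2 k : ℕ) (Vl Su N b15 b2 s w n0 : ℝ) (N1 : ℕ) (hy : 2 ≤ y)
    (hyz : y ≤ z)
    (hP1 : z ≤ P1) (hP2 : z ≤ P2)
    (hV : Vl ≤ V y) (hVl : 0 ≤ Vl) (hS : S y z ≤ Su) (hSu : Su ≤ 1)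
    (hN : ((primesIoc y z).card : ℝ) = N) (hN1 : (primesIoc 1 y).card = N1)
    (h15 : ∀ M, ∑ p ∈ primesIoc z M, 1 / ((p : ℝ) * √p) ≤ b15) (hb15 : 0 ≤ b15)
    (hb2 : ∀ M, ∑ p ∈ primesIoc z M, 1 / (p : ℝ) ^ 2 ≤ b2) (hb20 : 0 ≤ b2)
    (hs : (2 : ℝ) ^ r ≤ s ^ 2) (hs0 : 0 ≤ s) (hw : w ^ 2 ≤ z) (hw0 : 0 < w)
    (hr : (b : ℝ) ^ 2 ≤ ((z : ℝ) + 1) ^ (r + 3))
    (hrp : (b : ℝ) ^ 2 ≤ ((z : ℝ) + 1) ^ (rp + 1) * (P2 : ℝ) ^ 2)
    (hk : 1 + s * ((b : ℝ) + 3) / (2 * z * w) ≤ 2 ^ k) (n : ℕ) (hn : 1 ≤ n) (han : a ≤ n) (hnb : n < b)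
    (ha0 : n0 = a)
    (hfin : ∀ x : ℝ, n0 ≤ x → 2 ≤ (2 * x + 1) * Vl * (1 - Su) -
      (1 + N) * 2 ^ (N1 - 1) -
      ((2 * x + 1) / 2 * b2 + (P1 : ℝ) / 2 + b * (x + 1) / (2 * (P1 : ℝ) ^ 2) + 1) -
      ((s * (x + 3) * b15 +
      2 ^ r * ((2 * x + 1) / 2 * b2 + (P2 : ℝ) / 2) +
      (2 * x + 1) / 4 * b2 * (1 + k * 0.69315)) +
      2 ^ rp * (b * (x + 1) / (2 * (P2 : ℝ) ^ 2)))) : TwoCyc n := by
  have hz : 2 ≤ z := hy.trans hyz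
  have hn0 : (1 : ℝ) ≤ n := by exact_mod_cast hn
  have hnb' : (n : ℝ) + 1 ≤ b := by exact_mod_cast hnb
  have hzr : (2 : ℝ) ≤ z := by exact_mod_cast hz
  have hP1r : (0 : ℝ) < P1 := by
    have : 0 < P1 := by omega
    exact_mod_cast this
  have hP2r : (0 : ℝ) < P2 := by
    have : 0 < P2 := by omega
    exact_mod_cast this
  have hsq : √((2 : ℝ) ^ r) ≤ s := by
    rw [Real.sqrt_le_left hs0]
    exact hs
  have hwz : w ≤ √(z : ℝ) := Real.le_sqrt_of_sq_le hw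
  have hsq2 : ((n : ℝ) + 1) ^ 2 ≤ b * (n + 1) := by
    rw [sq]
    apply mul_le_mul_of_nonneg_right hnb' (by linarith)
  have hsqb : ((n : ℝ) + 1) ^ 2 ≤ (b : ℝ) ^ 2 := by
    apply pow_le_pow_left₀ (by linarith) hnb'
  have hdiv : ((n : ℝ) + 1) ^ 2 / n ≤ n + 3 := by
    rw [div_le_iff₀ (by linarith)]
    nlinarith
  refine regimeA y z n r rp P1 P2 b15 b2 (k * 0.69315) hy hyz hn hP1 hP2 h15 hb2
    (hsqb.trans hr) (hsqb.trans hrp) ?_ ?_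
  · have h1 : 1 + √((2 : ℝ) ^ r) * ((n : ℝ) + 1) ^ 2 / (2 * n * (z * √z)) ≤ 2 ^ k := by
      refine le_trans ?_ hk
      have e1 : √((2 : ℝ) ^ r) * ((n : ℝ) + 1) ^ 2 / (2 * n * (z * √z)) =
          √((2 : ℝ) ^ r) * (((n : ℝ) + 1) ^ 2 / n) / (2 * z * √z) := by
        field_simp
      rw [e1]
      have hb3 : ((n : ℝ) + 1) ^ 2 / n ≤ (b : ℝ) + 3 := by linarith
      have h3 : √((2 : ℝ) ^ r) * (((n : ℝ) + 1) ^ 2 / n) ≤ s * ((b : ℝ) + 3) := by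
        apply mul_le_mul hsq hb3 (by positivity) hs0
      have h4 : 2 * (z : ℝ) * w ≤ 2 * z * √z := by
        apply mul_le_mul_of_nonneg_left hwz (by positivity)
      have : √((2 : ℝ) ^ r) * (((n : ℝ) + 1) ^ 2 / n) / (2 * z * √z) ≤
          s * ((b : ℝ) + 3) / (2 * z * w) := by
        apply div_le_div₀ (by positivity) h3 (by positivity) h4
      linarith
    calc Real.log (1 + √((2 : ℝ) ^ r) * ((n : ℝ) + 1) ^ 2 / (2 * n * (z * √z)))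
        ≤ Real.log ((2 : ℝ) ^ k) := Real.log_le_log (by positivity) h1
      _ = k * Real.log 2 := by rw [Real.log_pow]
      _ ≤ k * 0.69315 := by
          apply mul_le_mul_of_nonneg_left _ (by positivity)
          have := Real.log_two_lt_d9
          linarith
  · have hf := hfin n (by rw [ha0]; exact_mod_cast han)
    refine le_trans hf ?_
    rw [hN, hN1]
    have hx : (0 : ℝ) ≤ 2 * n + 1 := by linarith
    have g1 : (2 * (n : ℝ) + 1) * Vl * (1 - Su) ≤ (2 * (n : ℝ) + 1) * V y * (1 - S y z) := by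
      apply mul_le_mul (mul_le_mul_of_nonneg_left hV hx) (by linarith) (by linarith)
      exact mul_nonneg hx (hVl.trans hV)
    have g2 : ((n : ℝ) + 1) ^ 2 / (2 * (P1 : ℝ) ^ 2) ≤ b * (n + 1) / (2 * (P1 : ℝ) ^ 2) := by
      apply div_le_div_of_nonneg_right hsq2 (by positivity)
    have g3 : √((2 : ℝ) ^ r) * (((n : ℝ) + 1) ^ 2 / n) * b15 ≤ s * (n + 3) * b15 := by
      apply mul_le_mul_of_nonneg_right _ hb15
      apply mul_le_mul hsq hdiv (by positivity) hs0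
    have g4 : 2 ^ rp * (((n : ℝ) + 1) ^ 2 / (2 * (P2 : ℝ) ^ 2)) ≤
        2 ^ rp * (b * (n + 1) / (2 * (P2 : ℝ) ^ 2)) := by
      apply mul_le_mul_of_nonneg_left _ (by positivity)
      apply div_le_div_of_nonneg_right hsq2 (by positivity)
    linarith

end Pool.Agent.Helper9.TC
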