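import Pool.Agent.Helper9.TC.Reg

set_option autoImplicit false
open Finset Real

namespace Pool.Agent.Helper9.TC

lemma b2_9 (M : ℕ) : ∑ p ∈ primesIoc 512 M, 1 / (p : ℝ) ^ 2 ≤ 0.0008681 := by
  have h := sum2_closed 9 M (by norm_num)
  norm_num at h ⊢
  linarith

lemma b2_10 (M : ℕ) : ∑ p ∈ primesIoc 1024 M, 1 / (p : ℝ) ^ 2 ≤ 0.000390625 := by
  have h := sum2_closed 10 M (by norm_num)
  norm_num at h ⊢
  linarith

lemma b2_11 (M : ℕ) : ∑ p ∈ primesIoc 2048 M, 1 / (p : ℝ) ^ 2 ≤ 0.00017756 := by
  have h := sum2_closed 11 M (by norm_num)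
  norm_num at h ⊢
  linarith

lemma b2_12 (M : ℕ) : ∑ p ∈ primesIoc 4096 M, 1 / (p : ℝ) ^ 2 ≤ 0.00008139 := by
  have h := sum2_closed 12 M (by norm_num)
  norm_num at h ⊢
  linarith

theorem reg_9_2000000 (n : ℕ) (h1 : 2000000 ≤ n) (h2 : n < 3000000) : TwoCyc n := by
  obtain ⟨c1, c2, c3, c4⟩ := num23
  refine regimeA_num 23 512 2000000 3000000 2 1 22900 18800 9 0.16358 0.60171 88 0.0280 0.0008681 2 22.6 2000000 9
    (by norm_num) (by norm_num) (by norm_num) (by norm_num) c1 (by norm_num) c2 (by norm_num)
    (by rw [c4]; norm_num) c3 sum15_9 (by norm_num) b2_9 (by norm_num) (by norm_num) (by norm_num)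
    (by norm_num) (by norm_num) (by norm_num) (by norm_num) (by norm_num) n (by omega) h1 h2
    (by norm_num) ?_
  intro x hx
  norm_num at hx ⊢
  linarith

theorem reg_9_3000000 (n : ℕ) (h1 : 3000000 ≤ n) (h2 : n < 5900000) : TwoCyc n := by
  obtain ⟨c1, c2, c3, c4⟩ := num23
  refine regimeA_num 23 512 3000000 5900000 2 1 32800 24600 9 0.16358 0.60171 88 0.0280 0.0008681 2 22.6 3000000 9
    (by norm_num) (by norm_num) (by norm_num) (by norm_num) c1 (by norm_num) c2 (by norm_num)
    (by rw [c4]; norm_num) c3 sum15_9 (by norm_num) b2_9 (by norm_num) (by norm_num) (by norm_num)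
    (by norm_num) (by norm_num) (by norm_num) (by norm_num) (by norm_num) n (by omega) h1 h2
    (by norm_num) ?_
  intro x hx
  norm_num at hx ⊢
  linarith

theorem reg_10_5900000 (n : ℕ) (h1 : 5900000 ≤ n) (h2 : n < 12000000) : TwoCyc n := by
  obtain ⟨c1, c2, c3, c4⟩ := num31
  refine regimeA_num 31 1024 5900000 12000000 2 1 52100 40600 9 0.15285 0.63633 161 0.0181 0.000390625 2 32 5900000 11
    (by norm_num) (by norm_num) (by norm_num) (by norm_num) c1 (by norm_num) c2 (by norm_num)
    (by rw [c4]; norm_num) c3 sum15_10 (by norm_num) b2_10 (by norm_num) (by norm_num) (by norm_num)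
    (by norm_num) (by norm_num) (by norm_num) (by norm_num) (by norm_num) n (by omega) h1 h2
    (by norm_num) ?_
  intro x hx
  norm_num at hx ⊢
  linarith

theorem reg_10_12000000 (n : ℕ) (h1 : 12000000 ≤ n) (h2 : n < 33000000) : TwoCyc n := by
  obtain ⟨c1, c2, c3, c4⟩ := num31
  refine regimeA_num 31 1024 12000000 33000000 2 1 92500 75800 10 0.15285 0.63633 161 0.0181 0.000390625 2 32 12000000 11
    (by norm_num) (by norm_num) (by norm_num) (by norm_num) c1 (by norm_num) c2 (by norm_num)
    (by rw [c4]; norm_num) c3 sum15_10 (by norm_num) b2_10 (by norm_num) (by norm_num) (by norm_num)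
    (by norm_num) (by norm_num) (by norm_num) (by norm_num) (by norm_num) n (by omega) h1 h2
    (by norm_num) ?_
  intro x hx
  norm_num at hx ⊢
  linarith

theorem reg_10_33000000 (n : ℕ) (h1 : 33000000 ≤ n) (h2 : n < 150000000) : TwoCyc n := by
  obtain ⟨c1, c2, c3, c4⟩ := num31
  refine regimeA_num 31 1024 33000000 150000000 3 1 215000 168000 13 0.15285 0.63633 161 0.0181 0.000390625 2.82843 32 33000000 11
    (by norm_num) (by norm_num) (by norm_num) (by norm_num) c1 (by norm_num) c2 (by norm_num)
    (by rw [c4]; norm_num) c3 sum15_10 (by norm_num) b2_10 (by norm_num) (by norm_num) (by norm_num)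
    (by norm_num) (by norm_num) (by norm_num) (by norm_num) (by norm_num) n (by omega) h1 h2
    (by norm_num) ?_
  intro x hx
  norm_num at hx ⊢
  linarith

theorem reg_10_150000000 (n : ℕ) (h1 : 150000000 ≤ n) (h2 : n < 1000000000) : TwoCyc n := by
  obtain ⟨c1, c2, c3, c4⟩ := num31
  refine regimeA_num 31 1024 150000000 1000000000 3 2 669000 492000 16 0.15285 0.63633 161 0.0181 0.000390625 2.82843 32 150000000 11
    (by norm_num) (by norm_num) (by norm_num) (by norm_num) c1 (by norm_num) c2 (by norm_num)
    (by rw [c4]; norm_num) c3 sum15_10 (by norm_num) b2_10 (by norm_num) (by norm_num) (by norm_num)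
    (by norm_num) (by norm_num) (by norm_num) (by norm_num) (by norm_num) n (by omega) h1 h2
    (by norm_num) ?_
  intro x hx
  norm_num at hx ⊢
  linarith

theorem reg_11_1000000000 (n : ℕ) (h1 : 1000000000 ≤ n) (h2 : n < 10000000000) : TwoCyc n := by
  obtain ⟨c1, c2, c3, c4⟩ := num47
  refine regimeA_num 47 2048 1000000000 10000000000 4 2 2710000 1690000 18 0.1387 0.63378 294 0.0118 0.00017756 4 45.2 1000000000 15
    (by norm_num) (by norm_num) (by norm_num) (by norm_num) c1 (by norm_num) c2 (by norm_num)
    (by rw [c4]; norm_num) c3 sum15_11 (by norm_num) b2_11 (by norm_num) (by norm_num) (by norm_num)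
    (by norm_num) (by norm_num) (by norm_num) (by norm_num) (by norm_num) n (by omega) h1 h2
    (by norm_num) ?_
  intro x hx
  norm_num at hx ⊢
  linarith

theorem reg_11_10000000000 (n : ℕ) (h1 : 10000000000 ≤ n) (h2 : n < 100000000000) : TwoCyc n := by
  obtain ⟨c1, c2, c3, c4⟩ := num47
  refine regimeA_num 47 2048 10000000000 100000000000 4 2 12600000 7110000 22 0.1387 0.63378 294 0.0118 0.00017756 4 45.2 10000000000 15
    (by norm_num) (by norm_num) (by norm_num) (by norm_num) c1 (by norm_num) c2 (by norm_num)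
    (by rw [c4]; norm_num) c3 sum15_11 (by norm_num) b2_11 (by norm_num) (by norm_num) (by norm_num)
    (by norm_num) (by norm_num) (by norm_num) (by norm_num) (by norm_num) n (by omega) h1 h2
    (by norm_num) ?_
  intro x hx
  norm_num at hx ⊢
  linarith

theorem reg_11_100000000000 (n : ℕ) (h1 : 100000000000 ≤ n) (h2 : n < 390000000000) : TwoCyc n := by
  obtain ⟨c1, c2, c3, c4⟩ := num47
  refine regimeA_num 47 2048 100000000000 390000000000 5 2 42700000 17800000 24 0.1387 0.63378 294 0.0118 0.00017756 5.65686 45.2 100000000000 15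
    (by norm_num) (by norm_num) (by norm_num) (by norm_num) c1 (by norm_num) c2 (by norm_num)
    (by rw [c4]; norm_num) c3 sum15_11 (by norm_num) b2_11 (by norm_num) (by norm_num) (by norm_num)
    (by norm_num) (by norm_num) (by norm_num) (by norm_num) (by norm_num) n (by omega) h1 h2
    (by norm_num) ?_
  intro x hx
  norm_num at hx ⊢
  linarith

theorem reg_11_390000000000 (n : ℕ) (h1 : 390000000000 ≤ n) (h2 : n < 1000000000000) : TwoCyc n := by
  obtain ⟨c1, c2, c3, c4⟩ := num47
  refine regimeA_num 47 2048 390000000000 1000000000000 5 2 92100000 31600000 25 0.1387 0.63378 294 0.0118 0.00017756 5.65686 45.2 390000000000 15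
    (by norm_num) (by norm_num) (by norm_num) (by norm_num) c1 (by norm_num) c2 (by norm_num)
    (by rw [c4]; norm_num) c3 sum15_11 (by norm_num) b2_11 (by norm_num) (by norm_num) (by norm_num)
    (by norm_num) (by norm_num) (by norm_num) (by norm_num) (by norm_num) n (by omega) h1 h2
    (by norm_num) ?_
  intro x hx
  norm_num at hx ⊢
  linarith

theorem reg_12_1000000000000 (n : ℕ) (h1 : 1000000000000 ≤ n) (h2 : n < 10000000000000) : TwoCyc n := by
  obtain ⟨c1, c2, c3, c4⟩ := num89
  refine regimeA_num 89 4096 1000000000000 10000000000000 5 2 271000000 71100000 27 0.12157 0.58955 540 0.0078 0.00008139 5.65686 64 1000000000000 24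
    (by norm_num) (by norm_num) (by norm_num) (by norm_num) c1 (by norm_num) c2 (by norm_num)
    (by rw [c4]; norm_num) c3 sum15_12 (by norm_num) b2_12 (by norm_num) (by norm_num) (by norm_num)
    (by norm_num) (by norm_num) (by norm_num) (by norm_num) (by norm_num) n (by omega) h1 h2
    (by norm_num) ?_
  intro x hx
  norm_num at hx ⊢
  linarith

theorem reg_12_10000000000000 (n : ℕ) (h1 : 10000000000000 ≤ n) (h2 : n < 280000000000000) : TwoCyc n := by
  obtain ⟨c1, c2, c3, c4⟩ := num89
  refine regimeA_num 89 4096 10000000000000 280000000000000 5 3 1780000000 291000000 32 0.12157 0.58955 540 0.0078 0.00008139 5.65686 64 10000000000000 24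
    (by norm_num) (by norm_num) (by norm_num) (by norm_num) c1 (by norm_num) c2 (by norm_num)
    (by rw [c4]; norm_num) c3 sum15_12 (by norm_num) b2_12 (by norm_num) (by norm_num) (by norm_num)
    (by norm_num) (by norm_num) (by norm_num) (by norm_num) (by norm_num) n (by omega) h1 h2
    (by norm_num) ?_
  intro x hx
  norm_num at hx ⊢
  linarith

theorem reg_12_280000000000000 (n : ℕ) (h1 : 280000000000000 ≤ n) (h2 : n < 10000000000000000) : TwoCyc n := by
  obtain ⟨c1, c2, c3, c4⟩ := num89
  refine regimeA_num 89 4096 280000000000000 10000000000000000 6 3 17800000000 1640000000 38 0.12157 0.58955 540 0.0078 0.00008139 8 64 280000000000000 24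
    (by norm_num) (by norm_num) (by norm_num) (by norm_num) c1 (by norm_num) c2 (by norm_num)
    (by rw [c4]; norm_num) c3 sum15_12 (by norm_num) b2_12 (by norm_num) (by norm_num) (by norm_num)
    (by norm_num) (by norm_num) (by norm_num) (by norm_num) (by norm_num) n (by omega) h1 h2
    (by norm_num) ?_
  intro x hx
  norm_num at hx ⊢
  linarith

theorem regA (n : ℕ) (h1 : 2000000 ≤ n) (h2 : n < 10000000000000000) : TwoCyc n := by
  rcases lt_or_ge n 3000000 with h | h1
  · exact reg_9_2000000 n h1 h
  rcases lt_or_ge n 5900000 with h | h1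
  · exact reg_9_3000000 n h1 h
  rcases lt_or_ge n 12000000 with h | h1
  · exact reg_10_5900000 n h1 h
  rcases lt_or_ge n 33000000 with h | h1
  · exact reg_10_12000000 n h1 h
  rcases lt_or_ge n 150000000 with h | h1
  · exact reg_10_33000000 n h1 h
  rcases lt_or_ge n 1000000000 with h | h1
  · exact reg_10_150000000 n h1 h
  rcases lt_or_ge n 10000000000 with h | h1
  · exact reg_11_1000000000 n h1 h
  rcases lt_or_ge n 100000000000 with h | h1
  · exact reg_11_10000000000 n h1 h
  rcases lt_or_ge n 390000000000 with h | h1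
  · exact reg_11_100000000000 n h1 h
  rcases lt_or_ge n 1000000000000 with h | h1
  · exact reg_11_390000000000 n h1 h
  rcases lt_or_ge n 10000000000000 with h | h1
  · exact reg_12_1000000000000 n h1 h
  rcases lt_or_ge n 280000000000000 with h | h1
  · exact reg_12_10000000000000 n h1 h
  exact reg_12_280000000000000 n h1 h2

end Pool.Agent.Helper9.TC
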