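import Pool.Agent.Helper78.TC.HitsT2
import Pool.Agent.Helper42.TC.Gap
import Pool.Agent.Helper9.TC.Blocks

/-!
# The estimate T2 (MP_1181b9_nt), with the gap lemma discharged
-/

set_option autoImplicit false

namespace Pool.Agent.Helper9.TC

theorem hits_T2 (z n p : ℕ) (hz : 2 ≤ z) (hp : p.Prime) (hp1 : 4096 ≤ p) (hpn : p ^ 10 ≤ n ^ 3) :
    ((hits z n p).card : ℝ) ≤ 5.72 * n / (p * √p) + 0.64 * (p : ℝ) ^ 2 +
      n / (p : ℝ) ^ 2 * Real.log n :=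
  Pool.Agent.Helper78.TC.hits_T2_of_gap
    (fun T X B x₂ τ R h1 h2 h3 h4 h5 h6 h7 h8 h9 h10 h11 h12 h13 h14 =>
      Pool.Agent.Helper42.TC.gap_lemma T X B x₂ τ R h1 h2 h3 h4 h5 h6 h7 h8 h9 h10 h11 h12 h13 h14)
    z n p hz hp hp1 hpn

end Pool.Agent.Helper9.TC
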