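import Pool.Agent.Helper9.TC.Reg
import Pool.Agent.Helper9.TC.T2

/-!
# Regimes with the estimate T2 for MP_1181b9_nt
-/

set_option autoImplicit false
open Finset Real

namespace Pool.Agent.Helper9.TC

/-- Sum of the estimate T2 over the primes of `(z, P0]`. -/
theorem T2_sum (z n P0 : ℕ) (b15 b2 : ℝ) (hz : 4096 ≤ z) (hn : 1 ≤ n)
    (hP0 : P0 ^ 10 ≤ n ^ 3)
    (h15 : ∀ M, ∑ p ∈ primesIoc z M, 1 / ((p : ℝ) * √p) ≤ b15)
    (h2 : ∀ M, ∑ p ∈ primesIoc z M, 1 / (p : ℝ) ^ 2 ≤ b2) :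
    ∑ p ∈ primesIoc z P0, ((hits z n p).card : ℝ) ≤
      5.72 * n * b15 + 0.32 * (P0 : ℝ) ^ 3 + n * Real.log n * b2 := by
  have hn0 : (1 : ℝ) ≤ n := by exact_mod_cast hn
  have hlog : 0 ≤ Real.log n := Real.log_nonneg hn0
  have hb : ∀ p ∈ primesIoc z P0, ((hits z n p).card : ℝ) ≤
      5.72 * n * (1 / ((p : ℝ) * √p)) + n * Real.log n * (1 / (p : ℝ) ^ 2) +
      0.64 * (P0 : ℝ) ^ 2 := by
    intro p hp
    have hp' := mem_primesIoc.1 hp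
    have hpP : (p : ℝ) ≤ P0 := by exact_mod_cast hp'.1.2
    have hppos : (0 : ℝ) < p := by
      have := hp'.2.pos
      exact_mod_cast this
    have hT := hits_T2 z n p (by omega) hp'.2 (by omega)
      (le_trans (Nat.pow_le_pow_left hp'.1.2 10) hP0)
    refine le_trans hT ?_
    have e1 : 5.72 * (n : ℝ) / (p * √p) = 5.72 * n * (1 / ((p : ℝ) * √p)) := by
      ring
    have e2 : (n : ℝ) / (p : ℝ) ^ 2 * Real.log n = n * Real.log n * (1 / (p : ℝ) ^ 2) := by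
      ring
    have e3 : (p : ℝ) ^ 2 ≤ (P0 : ℝ) ^ 2 := pow_le_pow_left₀ hppos.le hpP 2
    rw [e1, e2]
    linarith
  refine le_trans (Finset.sum_le_sum hb) ?_
  rw [Finset.sum_add_distrib, Finset.sum_add_distrib, ← Finset.mul_sum, ← Finset.mul_sum,
    Finset.sum_const, nsmul_eq_mul]
  have h3 := h15 P0
  have h4 := h2 P0
  have h5 := card_primesIoc_le z P0 (by omega)
  have k1 : 5.72 * (n : ℝ) * ∑ p ∈ primesIoc z P0, 1 / ((p : ℝ) * √p) ≤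
      5.72 * n * b15 := mul_le_mul_of_nonneg_left h3 (by positivity)
  have k2 : n * Real.log n * ∑ p ∈ primesIoc z P0, 1 / (p : ℝ) ^ 2 ≤
      n * Real.log n * b2 := mul_le_mul_of_nonneg_left h4 (by positivity)
  have k3 : ((primesIoc z P0).card : ℝ) * (0.64 * (P0 : ℝ) ^ 2) ≤
      (P0 : ℝ) / 2 * (0.64 * (P0 : ℝ) ^ 2) := mul_le_mul_of_nonneg_right h5 (by positivity)
  calc _ ≤ 5.72 * n * b15 + n * Real.log n * b2 + (P0 : ℝ) / 2 * (0.64 * (P0 : ℝ) ^ 2) := by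
        linarith
    _ = _ := by ring

/-- Regime with T2. -/
theorem regimeB (y z n r rp P0 P1 P2 : ℕ) (b15 b2 c15 c2 cl : ℝ) (hy : 2 ≤ y) (hyz : y ≤ z)
    (hz : 4096 ≤ z) (hn : 1 ≤ n)
    (hP1 : z ≤ P1) (hP0 : z ≤ P0) (hP2 : P0 ≤ P2) (hP0n : P0 ^ 10 ≤ n ^ 3)
    (h15 : ∀ M, ∑ p ∈ primesIoc z M, 1 / ((p : ℝ) * √p) ≤ b15)
    (hb2 : ∀ M, ∑ p ∈ primesIoc z M, 1 / (p : ℝ) ^ 2 ≤ b2)
    (hc15 : ∀ M, ∑ p ∈ primesIoc P0 M, 1 / ((p : ℝ) * √p) ≤ c15)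
    (hc2 : ∀ M, ∑ p ∈ primesIoc P0 M, 1 / (p : ℝ) ^ 2 ≤ c2)
    (hr : ((n : ℝ) + 1) ^ 2 ≤ ((z : ℝ) + 1) ^ (r + 1) * ((P0 : ℝ) + 1) ^ 2)
    (hrp : ((n : ℝ) + 1) ^ 2 ≤ ((z : ℝ) + 1) ^ (rp + 1) * (P2 : ℝ) ^ 2)
    (hcl : Real.log (1 + √((2 : ℝ) ^ r) * ((n : ℝ) + 1) ^ 2 / (2 * n * (P0 * √P0))) ≤ cl)
    (hfin : 2 ≤ (2 * (n : ℝ) + 1) * V y * (1 - S y z) -
      (1 + ((primesIoc y z).card : ℝ)) * 2 ^ ((primesIoc 1 y).card - 1) -
      ((2 * (n : ℝ) + 1) / 2 * b2 + (P1 : ℝ) / 2 + ((n : ℝ) + 1) ^ 2 / (2 * (P1 : ℝ) ^ 2) + 1) -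
      ((5.72 * n * b15 + 0.32 * (P0 : ℝ) ^ 3 + n * Real.log n * b2) +
      ((√((2 : ℝ) ^ r) * (((n : ℝ) + 1) ^ 2 / n) * c15 +
      2 ^ r * ((2 * (n : ℝ) + 1) / 2 * c2 + (P2 : ℝ) / 2) +
      (2 * (n : ℝ) + 1) / 4 * c2 * (1 + cl)) +
      2 ^ rp * (((n : ℝ) + 1) ^ 2 / (2 * (P2 : ℝ) ^ 2))))) : TwoCyc n := by
  have hz2 : 2 ≤ z := hy.trans hyz
  have hP2r : (0 : ℝ) < P2 := by
    have : 0 < P2 := by omega
    exact_mod_cast this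
  have hM : P2 ≤ max (n + 1) P2 := le_max_right _ _
  refine master y z n P1 (max (n + 1) P2) b2 _ hy hyz hn hP1 (le_max_left _ _) hb2 ?_ hfin
  rw [primesIoc_union z P0 (max (n + 1) P2) hP0 (by omega),
    primesIoc_union P0 P2 (max (n + 1) P2) hP2 hM]
  refine add_le_add (T2_sum z n P0 b15 b2 hz hn hP0n h15 hb2) (add_le_add ?_ ?_)
  · exact TT_sum z n r P0 P2 c15 c2 cl hz2 hn hP0 hr hc15 hc2 hcl
  · refine hits_pairs z n P2 rp _ hz2 hn (by omega) ?_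
    rw [div_le_iff₀ (by positivity)]
    exact hrp

/-- Numerical form of `regimeB` with `P0 = 2 ^ i0`, `P2 = 2 ^ i2`, `2 ^ la ≤ n < 2 ^ lb`. -/
theorem regimeB_num (y z la lb r rp i0 P1 P2 : ℕ) (Vl Su N b15 b2 s w c15 c2 n0 b P0 : ℝ) (N1 : ℕ)
    (hy : 2 ≤ y) (hyz : y ≤ z) (hz : 4096 ≤ z)
    (hP1 : z ≤ P1) (hP0 : z ≤ 2 ^ i0) (hP2 : 2 ^ i0 ≤ P2)
    (hV : Vl ≤ V y) (hVl : 0 ≤ Vl) (hS : S y z ≤ Su) (hSu : Su ≤ 1)
    (hN : ((primesIoc y z).card : ℝ) = N) (hN1 : (primesIoc 1 y).card = N1)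
    (h15 : ∀ M, ∑ p ∈ primesIoc z M, 1 / ((p : ℝ) * √p) ≤ b15)
    (hb2 : ∀ M, ∑ p ∈ primesIoc z M, 1 / (p : ℝ) ^ 2 ≤ b2) (hb20 : 0 ≤ b2)
    (hs : (2 : ℝ) ^ r ≤ s ^ 2) (hs0 : 0 ≤ s) (hw : w ^ 2 ≤ P0) (hw0 : 0 < w)
    (hi0 : 10 * i0 ≤ 3 * la) (hi01 : 1 ≤ i0)
    (hP0e : P0 = 2 ^ i0) (hbe : b = 2 ^ lb) (hn0e : n0 = 2 ^ la)
    (hc15 : 6.829 / (i0 * w) ≤ c15) (hc2 : 4 / ((i0 : ℝ) * P0) ≤ c2)
    (hr : b ^ 2 ≤ ((z : ℝ) + 1) ^ (r + 1) * P0 ^ 2)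
    (hrp : b ^ 2 ≤ ((z : ℝ) + 1) ^ (rp + 1) * (P2 : ℝ) ^ 2)
    (hsP : s ≤ P0) (n : ℕ) (han : 2 ^ la ≤ n) (hnb : n < 2 ^ lb)
    (hfin : ∀ x : ℝ, n0 ≤ x → 2 ≤ (2 * x + 1) * Vl * (1 - Su) -
      (1 + N) * 2 ^ (N1 - 1) -
      ((2 * x + 1) / 2 * b2 + (P1 : ℝ) / 2 + b * (x + 1) / (2 * (P1 : ℝ) ^ 2) + 1) -
      ((5.72 * x * b15 + 0.32 * P0 ^ 3 + x * (lb * 0.69315) * b2) +
      ((s * (x + 3) * c15 +
      2 ^ r * ((2 * x + 1) / 2 * c2 + (P2 : ℝ) / 2) +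
      (2 * x + 1) / 4 * c2 * (1 + (lb + 2) * 0.69315)) +
      2 ^ rp * (b * (x + 1) / (2 * (P2 : ℝ) ^ 2))))) : TwoCyc n := by
  have hn : 1 ≤ n := le_trans Nat.one_le_two_pow han
  have hn0 : (1 : ℝ) ≤ n := by exact_mod_cast hn
  have hnb' : (n : ℝ) + 1 ≤ b := by
    rw [hbe]; exact_mod_cast hnb
  have hzr : (4096 : ℝ) ≤ z := by exact_mod_cast hz
  have hP0c : (((2 ^ i0 : ℕ)) : ℝ) = P0 := by rw [hP0e]; norm_num
  have hP0r : (4096 : ℝ) ≤ P0 := by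
    have h1 : (z : ℝ) ≤ ((2 ^ i0 : ℕ) : ℝ) := by exact_mod_cast hP0
    rw [hP0c] at h1
    linarith
  have hP1r : (0 : ℝ) < P1 := by
    have : 0 < P1 := by omega
    exact_mod_cast this
  have hP2r : (0 : ℝ) < P2 := by
    have h1 : ((2 ^ i0 : ℕ) : ℝ) ≤ (P2 : ℝ) := by exact_mod_cast hP2
    rw [hP0c] at h1
    linarith
  have hi0r : (1 : ℝ) ≤ i0 := by exact_mod_cast hi01
  have hc150 : 0 ≤ c15 := le_trans (by positivity) hc15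
  have hc20 : 0 ≤ c2 := le_trans (by positivity) hc2
  have hsq : √((2 : ℝ) ^ r) ≤ s := by
    rw [Real.sqrt_le_left hs0]
    exact hs
  have hwz : w ≤ √P0 := Real.le_sqrt_of_sq_le hw
  have hsq2 : ((n : ℝ) + 1) ^ 2 ≤ b * (n + 1) := by
    rw [sq]
    apply mul_le_mul_of_nonneg_right hnb' (by linarith)
  have hsqb : ((n : ℝ) + 1) ^ 2 ≤ b ^ 2 := by
    apply pow_le_pow_left₀ (by linarith) hnb'
  have hdiv : ((n : ℝ) + 1) ^ 2 / n ≤ n + 3 := by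
    rw [div_le_iff₀ (by linarith)]
    nlinarith
  have hlog2 := Real.log_two_lt_d9
  refine regimeB y z n r rp (2 ^ i0) P1 P2 b15 b2 c15 c2 ((lb + 2) * 0.69315) hy hyz hz hn hP1 hP0
    hP2 ?_ h15 hb2 ?_ ?_ ?_ (hsqb.trans hrp) ?_ ?_
  · calc (2 ^ i0) ^ 10 = 2 ^ (10 * i0) := by rw [← pow_mul, mul_comm]
      _ ≤ 2 ^ (3 * la) := Nat.pow_le_pow_right (by norm_num) hi0
      _ = (2 ^ la) ^ 3 := by rw [← pow_mul, mul_comm]
      _ ≤ n ^ 3 := Nat.pow_le_pow_left han 3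
  · intro M
    refine (sum15_closed i0 M hi01).trans (le_trans ?_ hc15)
    have e1 : w ≤ √((2 : ℝ) ^ i0) := by rw [← hP0e]; exact hwz
    apply div_le_div_of_nonneg_left (by norm_num) (by positivity)
    apply mul_le_mul_of_nonneg_left e1 (by positivity)
  · intro M
    refine (sum2_closed i0 M hi01).trans ?_
    rw [← hP0e]
    exact hc2
  · rw [hP0c]
    refine (hsqb.trans hr).trans ?_
    apply mul_le_mul_of_nonneg_left _ (by positivity)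
    apply pow_le_pow_left₀ (by linarith) (by linarith)
  · rw [hP0c]
    have h1 : 1 + √((2 : ℝ) ^ r) * ((n : ℝ) + 1) ^ 2 / (2 * n * (P0 * √P0)) ≤ 2 ^ (lb + 2) := by
      have h2 : (1 : ℝ) ≤ √P0 := by
        rw [Real.one_le_sqrt]; linarith
      have e1 : √((2 : ℝ) ^ r) * ((n : ℝ) + 1) ^ 2 / (2 * n * (P0 * √P0)) =
          (√((2 : ℝ) ^ r) / P0) * (((n : ℝ) + 1) ^ 2 / n) / (2 * √P0) := by
        field_simp
      rw [e1]
      have h3 : √((2 : ℝ) ^ r) / P0 ≤ 1 := by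
        rw [div_le_one (by linarith)]
        linarith
      have h4 : (√((2 : ℝ) ^ r) / P0) * (((n : ℝ) + 1) ^ 2 / n) ≤ 1 * (n + 3) := by
        apply mul_le_mul h3 hdiv (by positivity) (by norm_num)
      have h5 : (√((2 : ℝ) ^ r) / P0) * (((n : ℝ) + 1) ^ 2 / n) / (2 * √P0) ≤ 1 * (n + 3) / 1 := by
        apply div_le_div₀ (by positivity) h4 (by norm_num) (by linarith)
      have h6 : (2 : ℝ) ^ (lb + 2) = 4 * b := by rw [hbe]; ring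
      rw [h6]
      linarith
    calc Real.log (1 + √((2 : ℝ) ^ r) * ((n : ℝ) + 1) ^ 2 / (2 * n * (P0 * √P0)))
        ≤ Real.log ((2 : ℝ) ^ (lb + 2)) := Real.log_le_log (by positivity) h1
      _ = (lb + 2) * Real.log 2 := by rw [Real.log_pow]; push_cast; ring
      _ ≤ (lb + 2) * 0.69315 := by
          apply mul_le_mul_of_nonneg_left _ (by positivity)
          linarith
  · have hf := hfin n (by rw [hn0e]; exact_mod_cast han)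
    refine le_trans hf ?_
    rw [hN, hN1, hP0c]
    have hx : (0 : ℝ) ≤ 2 * n + 1 := by linarith
    have g1 : (2 * (n : ℝ) + 1) * Vl * (1 - Su) ≤ (2 * (n : ℝ) + 1) * V y * (1 - S y z) := by
      apply mul_le_mul (mul_le_mul_of_nonneg_left hV hx) (by linarith) (by linarith)
      exact mul_nonneg hx (hVl.trans hV)
    have g2 : ((n : ℝ) + 1) ^ 2 / (2 * (P1 : ℝ) ^ 2) ≤ b * (n + 1) / (2 * (P1 : ℝ) ^ 2) := by
      apply div_le_div_of_nonneg_right hsq2 (by positivity)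
    have g3 : √((2 : ℝ) ^ r) * (((n : ℝ) + 1) ^ 2 / n) * c15 ≤ s * (n + 3) * c15 := by
      apply mul_le_mul_of_nonneg_right _ hc150
      apply mul_le_mul hsq hdiv (by positivity) hs0
    have g4 : 2 ^ rp * (((n : ℝ) + 1) ^ 2 / (2 * (P2 : ℝ) ^ 2)) ≤
        2 ^ rp * (b * (n + 1) / (2 * (P2 : ℝ) ^ 2)) := by
      apply mul_le_mul_of_nonneg_left _ (by positivity)
      apply div_le_div_of_nonneg_right hsq2 (by positivity)
    have g5 : Real.log n ≤ lb * 0.69315 := by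
      calc Real.log n ≤ Real.log ((2 : ℝ) ^ lb) := by
            apply Real.log_le_log (by linarith)
            rw [← hbe]; linarith
        _ = lb * Real.log 2 := by rw [Real.log_pow]
        _ ≤ lb * 0.69315 := by
            apply mul_le_mul_of_nonneg_left _ (by positivity)
            linarith
    have g6 : n * Real.log n * b2 ≤ n * (lb * 0.69315) * b2 := by
      apply mul_le_mul_of_nonneg_right _ hb20
      apply mul_le_mul_of_nonneg_left g5 (by linarith)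
    linarith

end Pool.Agent.Helper9.TC
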