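import Pool.Agent.Helper9.TC.RegA
import Pool.Agent.Helper9.TC.RegB

set_option autoImplicit false
open Finset Real

namespace Pool.Agent.Helper9.TC

theorem reg_12_53 (n : ℕ) (h1 : 2 ^ 53 ≤ n) (h2 : n < 2 ^ 58) : TwoCyc n := by
  obtain ⟨d1, d2, d3, d4⟩ := num89
  refine regimeB_num 89 4096 53 58 7 3 15 137438953472 68719476736 0.12157 0.58955 540 0.0078 0.00008139 11.31371 181.01
    0.0025152 (4 / (15 * 32768)) 9007199254740992 288230376151711744 32768 24
    (by norm_num) (by norm_num) (by norm_num) (by norm_num) (by norm_num) (by norm_num)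
    d1 (by norm_num) d2 (by norm_num)
    (by rw [d4]; norm_num) d3 sum15_12 b2_12 (by norm_num) (by norm_num) (by norm_num)
    (by norm_num) (by norm_num) (by norm_num) (by norm_num) (by norm_num) (by norm_num) (by norm_num)
    (by norm_num) (by norm_num) (by norm_num) (by norm_num) (by norm_num) n h1 h2 ?_
  intro x hx
  norm_num at hx ⊢
  linarith

theorem reg_12_58 (n : ℕ) (h1 : 2 ^ 58 ≤ n) (h2 : n < 2 ^ 66) : TwoCyc n := by
  obtain ⟨d1, d2, d3, d4⟩ := num89
  refine regimeB_num 89 4096 58 66 8 4 17 2199023255552 1099511627776 0.12157 0.58955 540 0.0078 0.00008139 16 362.03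
    0.0011096 (4 / (17 * 131072)) 288230376151711744 73786976294838206464 131072 24
    (by norm_num) (by norm_num) (by norm_num) (by norm_num) (by norm_num) (by norm_num)
    d1 (by norm_num) d2 (by norm_num)
    (by rw [d4]; norm_num) d3 sum15_12 b2_12 (by norm_num) (by norm_num) (by norm_num)
    (by norm_num) (by norm_num) (by norm_num) (by norm_num) (by norm_num) (by norm_num) (by norm_num)
    (by norm_num) (by norm_num) (by norm_num) (by norm_num) (by norm_num) n h1 h2 ?_
  intro x hx
  norm_num at hx ⊢
  linarith

theorem reg_12_66 (n : ℕ) (h1 : 2 ^ 66 ≤ n) (h2 : n < 2 ^ 84) : TwoCyc n := by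
  obtain ⟨d1, d2, d3, d4⟩ := num89
  refine regimeB_num 89 4096 66 84 10 5 19 1125899906842624 562949953421312 0.12157 0.58955 540 0.0078 0.00008139 32 724.07
    0.00049639 (4 / (19 * 524288)) 73786976294838206464 19342813113834066795298816 524288 24
    (by norm_num) (by norm_num) (by norm_num) (by norm_num) (by norm_num) (by norm_num)
    d1 (by norm_num) d2 (by norm_num)
    (by rw [d4]; norm_num) d3 sum15_12 b2_12 (by norm_num) (by norm_num) (by norm_num)
    (by norm_num) (by norm_num) (by norm_num) (by norm_num) (by norm_num) (by norm_num) (by norm_num)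
    (by norm_num) (by norm_num) (by norm_num) (by norm_num) (by norm_num) n h1 h2 ?_
  intro x hx
  norm_num at hx ⊢
  linarith

theorem reg_12_84 (n : ℕ) (h1 : 2 ^ 84 ≤ n) (h2 : n < 2 ^ 115) : TwoCyc n := by
  obtain ⟨d1, d2, d3, d4⟩ := num89
  refine regimeB_num 89 4096 84 115 14 8 25 73786976294838206464 36893488147419103232 0.12157 0.58955 540 0.0078 0.00008139 128 5792.61
    0.000047157 (4 / (25 * 33554432)) 19342813113834066795298816 41538374868278621028243970633760768 33554432 24
    (by norm_num) (by norm_num) (by norm_num) (by norm_num) (by norm_num) (by norm_num)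
    d1 (by norm_num) d2 (by norm_num)
    (by rw [d4]; norm_num) d3 sum15_12 b2_12 (by norm_num) (by norm_num) (by norm_num)
    (by norm_num) (by norm_num) (by norm_num) (by norm_num) (by norm_num) (by norm_num) (by norm_num)
    (by norm_num) (by norm_num) (by norm_num) (by norm_num) (by norm_num) n h1 h2 ?_
  intro x hx
  norm_num at hx ⊢
  linarith

theorem reg_12_115 (n : ℕ) (h1 : 2 ^ 115 ≤ n) (h2 : n < 2 ^ 160) : TwoCyc n := by
  obtain ⟨d1, d2, d3, d4⟩ := num89
  refine regimeB_num 89 4096 115 160 20 11 34 4951760157141521099596496896 618970019642690137449562112 0.12157 0.58955 540 0.0078 0.00008139 1024 131072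
    0.0000015324 (4 / (34 * 17179869184)) 41538374868278621028243970633760768 1461501637330902918203684832716283019655932542976 17179869184 24
    (by norm_num) (by norm_num) (by norm_num) (by norm_num) (by norm_num) (by norm_num)
    d1 (by norm_num) d2 (by norm_num)
    (by rw [d4]; norm_num) d3 sum15_12 b2_12 (by norm_num) (by norm_num) (by norm_num)
    (by norm_num) (by norm_num) (by norm_num) (by norm_num) (by norm_num) (by norm_num) (by norm_num)
    (by norm_num) (by norm_num) (by norm_num) (by norm_num) (by norm_num) n h1 h2 ?_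
  intro x hx
  norm_num at hx ⊢
  linarith

theorem reg_12_160 (n : ℕ) (h1 : 2 ^ 160 ≤ n) (h2 : n < 2 ^ 226) : TwoCyc n := by
  obtain ⟨d1, d2, d3, d4⟩ := num89
  refine regimeB_num 89 4096 160 226 29 16 48 680564733841876926926749214863536422912 42535295865117307932921825928971026432 0.12157 0.58955 540 0.0078 0.00008139 23170.47501 16777216
    0.0000000084801 (4 / (48 * 281474976710656)) 1461501637330902918203684832716283019655932542976 107839786668602559178668060348078522694548577690162289924414440996864 281474976710656 24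
    (by norm_num) (by norm_num) (by norm_num) (by norm_num) (by norm_num) (by norm_num)
    d1 (by norm_num) d2 (by norm_num)
    (by rw [d4]; norm_num) d3 sum15_12 b2_12 (by norm_num) (by norm_num) (by norm_num)
    (by norm_num) (by norm_num) (by norm_num) (by norm_num) (by norm_num) (by norm_num) (by norm_num)
    (by norm_num) (by norm_num) (by norm_num) (by norm_num) (by norm_num) n h1 h2 ?_
  intro x hx
  norm_num at hx ⊢
  linarith

theorem regB (n : ℕ) (h1 : 2 ^ 53 ≤ n) (h2 : n < 2 ^ 226) : TwoCyc n := by
  rcases lt_or_ge n (2 ^ 58) with h | h1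
  · exact reg_12_53 n h1 h
  rcases lt_or_ge n (2 ^ 66) with h | h1
  · exact reg_12_58 n h1 h
  rcases lt_or_ge n (2 ^ 84) with h | h1
  · exact reg_12_66 n h1 h
  rcases lt_or_ge n (2 ^ 115) with h | h1
  · exact reg_12_84 n h1 h
  rcases lt_or_ge n (2 ^ 160) with h | h1
  · exact reg_12_115 n h1 h
  exact reg_12_160 n h1 h2

end Pool.Agent.Helper9.TC
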