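import Pool.Agent.Helper9.TC.RegB2

/-!
# The asymptotic regimes for MP_1181b9_nt
-/

set_option autoImplicit false
open Finset Real

namespace Pool.Agent.Helper9.TC

/-- powers of two compared with `n / 2 ^ m` -/
lemma pow_le_div {l m e n : ℕ} (hn : 2 ^ l ≤ n) (h : e + m ≤ l) :
    (2 : ℝ) ^ e ≤ (n : ℝ) / 2 ^ m := by
  rw [le_div_iff₀ (by positivity), ← pow_add]
  calc (2 : ℝ) ^ (e + m) ≤ 2 ^ l := pow_le_pow_right₀ (by norm_num) h
    _ ≤ n := by exact_mod_cast hn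

theorem regimeC (y z l n : ℕ) (b15 b2 : ℝ) (hy : 2 ≤ y) (hyz : y ≤ z)
    (hz : 4096 ≤ z) (hzl : z ≤ 2 ^ (3 * l / 10)) (hl : 226 ≤ l) (hn1 : 2 ^ l ≤ n)
    (hn2 : n < 2 ^ (l + 1)) (hVS : 0 ≤ V y * (1 - S y z)) (hb20 : 0 ≤ b2)
    (h15 : ∀ M, ∑ p ∈ primesIoc z M, 1 / ((p : ℝ) * √p) ≤ b15)
    (hb2 : ∀ M, ∑ p ∈ primesIoc z M, 1 / (p : ℝ) ^ 2 ≤ b2)
    (hL : (1 + ((primesIoc y z).card : ℝ)) * 2 ^ ((primesIoc 1 y).card - 1) ≤
      2 ^ (l - l / 25))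
    (hfin : 2 ≤ n * (2 * (V y * (1 - S y z)) - 5.72 * b15 - (l + 1) * 0.69315 * b2 - 1.01 * b2 -
      10 / 2 ^ (l / 25))) : TwoCyc n := by
  have hn : 1 ≤ n := le_trans Nat.one_le_two_pow hn1
  obtain ⟨m, hm⟩ : ∃ m, m = l / 25 := ⟨_, rfl⟩
  obtain ⟨i0, hi0⟩ : ∃ i0, i0 = 3 * l / 10 := ⟨_, rfl⟩
  obtain ⟨i1, hi1⟩ : ∃ i1, i1 = 2 * l / 3 + 1 := ⟨_, rfl⟩
  obtain ⟨i2, hi2⟩ : ∃ i2, i2 = 13 * l / 20 + 1 := ⟨_, rfl⟩
  obtain ⟨r, hrdef⟩ : ∃ r, r = (2 * l + 2 - 2 * i0) / 12 := ⟨_, rfl⟩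
  rw [← hm] at hL hfin
  rw [← hi0] at hzl
  have hn0 : (1 : ℝ) ≤ n := by exact_mod_cast hn
  have hnbig : (1000 : ℝ) ≤ n := by
    have h1 : (2 : ℕ) ^ 10 ≤ 2 ^ l := Nat.pow_le_pow_right (by norm_num) (by omega)
    have h2 : 1000 ≤ n := by omega
    exact_mod_cast h2
  have hnb' : (n : ℝ) + 1 ≤ 2 ^ (l + 1) := by exact_mod_cast hn2
  have hz4 : (2 : ℝ) ^ 12 ≤ z + 1 := by
    have : (4096 : ℝ) ≤ z := by exact_mod_cast hz
    norm_num
    linarith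
  have hsqb : ((n : ℝ) + 1) ^ 2 ≤ 2 ^ (2 * l + 2) := by
    calc ((n : ℝ) + 1) ^ 2 ≤ (2 ^ (l + 1)) ^ 2 := pow_le_pow_left₀ (by linarith) hnb' 2
      _ = 2 ^ (2 * l + 2) := by rw [← pow_mul]; congr 1; ring
  have hdiv : ((n : ℝ) + 1) ^ 2 / n ≤ n + 3 := by
    rw [div_le_iff₀ (by linarith)]
    nlinarith
  have hi67 : 67 ≤ i0 := by omega
  have hi0r : (67 : ℝ) ≤ i0 := by exact_mod_cast hi67
  have hlog2 := Real.log_two_lt_d9
  have hD : (0 : ℝ) < 2 ^ m := by positivity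
  have hD1 : (1 : ℝ) ≤ 2 ^ m := one_le_pow₀ (by norm_num)
  have hP0c : (((2 ^ i0 : ℕ)) : ℝ) = 2 ^ i0 := by norm_num
  have hP1c : (((2 ^ i1 : ℕ)) : ℝ) = 2 ^ i1 := by norm_num
  have hP2c : (((2 ^ i2 : ℕ)) : ℝ) = 2 ^ i2 := by norm_num
  have hz12 : (2 : ℝ) ^ (12 * (r + 1)) ≤ ((z : ℝ) + 1) ^ (r + 1) := by
    rw [pow_mul]
    exact pow_le_pow_left₀ (by norm_num) hz4 _
  have hri : r + 2 * m ≤ i0 := by omega
  have hsr : √((2 : ℝ) ^ r) ≤ √((2 : ℝ) ^ i0) / 2 ^ m := by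
    rw [le_div_iff₀ hD]
    apply Real.le_sqrt_of_sq_le
    rw [mul_pow, Real.sq_sqrt (by positivity), ← pow_mul, ← pow_add]
    exact pow_le_pow_right₀ (by norm_num) (by omega)
  have hs0 : 0 < √((2 : ℝ) ^ i0) := Real.sqrt_pos.2 (by positivity)
  -- the bound for the sums beyond `2 ^ i0`
  have hr1 : ((n : ℝ) + 1) ^ 2 ≤ ((z : ℝ) + 1) ^ (r + 1) * ((2 : ℝ) ^ i0) ^ 2 := by
    refine hsqb.trans ?_
    calc (2 : ℝ) ^ (2 * l + 2) ≤ 2 ^ (12 * (r + 1) + i0 * 2) :=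
          pow_le_pow_right₀ (by norm_num) (by omega)
      _ = 2 ^ (12 * (r + 1)) * ((2 : ℝ) ^ i0) ^ 2 := by rw [pow_add, pow_mul 2 i0 2]
      _ ≤ _ := by apply mul_le_mul_of_nonneg_right hz12 (by positivity)
  have hP02 : (2 : ℕ) ^ i0 ≤ 2 ^ i2 := Nat.pow_le_pow_right (by norm_num) (by omega)
  have hP02r : (2 : ℝ) ^ i0 ≤ 2 ^ i2 := pow_le_pow_right₀ (by norm_num) (by omega)
  have hlogn : Real.log n ≤ (l + 1) * 0.69315 := by
    calc Real.log n ≤ Real.log ((2 : ℝ) ^ (l + 1)) := by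
          apply Real.log_le_log (by linarith) (by linarith)
      _ = (l + 1) * Real.log 2 := by rw [Real.log_pow]; push_cast; ring
      _ ≤ (l + 1) * 0.69315 := by
          apply mul_le_mul_of_nonneg_left _ (by positivity)
          linarith
  refine regimeB y z n r r (2 ^ i0) (2 ^ i1) (2 ^ i2) b15 b2 (6.829 / ((i0 : ℝ) * √((2 : ℝ) ^ i0)))
    (4 / ((i0 : ℝ) * 2 ^ i0)) ((l + 3) * 0.69315) hy hyz hz hn
    (hzl.trans (Nat.pow_le_pow_right (by norm_num) (by omega))) hzl hP02 ?_ h15 hb2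
    (fun M => sum15_closed i0 M (by omega)) (fun M => sum2_closed i0 M (by omega)) ?_ ?_ ?_ ?_
  · calc (2 ^ i0) ^ 10 = 2 ^ (10 * i0) := by rw [← pow_mul, mul_comm]
      _ ≤ 2 ^ (3 * l) := Nat.pow_le_pow_right (by norm_num) (by omega)
      _ = (2 ^ l) ^ 3 := by rw [← pow_mul, mul_comm]
      _ ≤ n ^ 3 := Nat.pow_le_pow_left hn1 3
  · rw [hP0c]
    refine hr1.trans ?_
    apply mul_le_mul_of_nonneg_left _ (by positivity)
    apply pow_le_pow_left₀ (by positivity) (by linarith)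
  · rw [hP2c]
    refine hr1.trans ?_
    apply mul_le_mul_of_nonneg_left _ (by positivity)
    apply pow_le_pow_left₀ (by positivity) hP02r
  · rw [hP0c]
    have h1 : 1 + √((2 : ℝ) ^ r) * ((n : ℝ) + 1) ^ 2 / (2 * n * (2 ^ i0 * √((2 : ℝ) ^ i0))) ≤
        2 ^ (l + 3) := by
      have h2 : (1 : ℝ) ≤ 2 ^ i0 := one_le_pow₀ (by norm_num)
      have e1 : √((2 : ℝ) ^ r) * ((n : ℝ) + 1) ^ 2 / (2 * n * (2 ^ i0 * √((2 : ℝ) ^ i0))) =
          (√((2 : ℝ) ^ r) / √((2 : ℝ) ^ i0)) * (((n : ℝ) + 1) ^ 2 / n) / (2 * 2 ^ i0) := by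
        field_simp
      rw [e1]
      have h3 : √((2 : ℝ) ^ r) / √((2 : ℝ) ^ i0) ≤ 1 := by
        rw [div_le_one hs0]
        apply Real.sqrt_le_sqrt
        exact pow_le_pow_right₀ (by norm_num) (by omega)
      have h4 : (√((2 : ℝ) ^ r) / √((2 : ℝ) ^ i0)) * (((n : ℝ) + 1) ^ 2 / n) ≤ 1 * (n + 3) := by
        apply mul_le_mul h3 hdiv (by positivity) (by norm_num)
      have h5 : (√((2 : ℝ) ^ r) / √((2 : ℝ) ^ i0)) * (((n : ℝ) + 1) ^ 2 / n) / (2 * 2 ^ i0) ≤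
          1 * (n + 3) / 1 := by
        apply div_le_div₀ (by positivity) h4 (by norm_num) (by linarith)
      have h6 : (2 : ℝ) ^ (l + 3) = 4 * 2 ^ (l + 1) := by ring
      rw [h6]
      linarith
    calc Real.log (1 + √((2 : ℝ) ^ r) * ((n : ℝ) + 1) ^ 2 / (2 * n * (2 ^ i0 * √((2 : ℝ) ^ i0))))
        ≤ Real.log ((2 : ℝ) ^ (l + 3)) := Real.log_le_log (by positivity) h1
      _ = (l + 3) * Real.log 2 := by rw [Real.log_pow]; push_cast; ring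
      _ ≤ (l + 3) * 0.69315 := by
          apply mul_le_mul_of_nonneg_left _ (by positivity)
          linarith
  · rw [hP0c, hP1c, hP2c]
    refine le_trans hfin ?_
    -- A
    have tA : (1 + ((primesIoc y z).card : ℝ)) * 2 ^ ((primesIoc 1 y).card - 1) ≤
        (n : ℝ) / 2 ^ m := hL.trans (pow_le_div hn1 (by omega))
    -- B
    have tB : (2 * (n : ℝ) + 1) / 2 * b2 ≤ 1.01 * n * b2 := by
      apply mul_le_mul_of_nonneg_right _ hb20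
      linarith
    -- C
    have tC : (2 : ℝ) ^ i1 / 2 ≤ (n : ℝ) / 2 ^ m := by
      have h1 : (2 : ℝ) ^ i1 / 2 = 2 ^ (2 * l / 3) := by rw [hi1, pow_succ]; ring
      rw [h1]
      exact pow_le_div hn1 (by omega)
    -- D
    have tD : ((n : ℝ) + 1) ^ 2 / (2 * ((2 : ℝ) ^ i1) ^ 2) ≤ (n : ℝ) / 2 ^ m := by
      refine le_trans ?_ (pow_le_div (e := l - m) hn1 (by omega))
      rw [div_le_iff₀ (by positivity)]
      refine hsqb.trans ?_
      calc (2 : ℝ) ^ (2 * l + 2) ≤ 2 ^ (l - m + (1 + i1 * 2)) :=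
            pow_le_pow_right₀ (by norm_num) (by omega)
        _ = 2 ^ (l - m) * (2 * (2 ^ i1) ^ 2) := by
            rw [pow_add, pow_add 2 1 (i1 * 2), pow_mul, pow_one]
    -- E
    have tE : (1 : ℝ) ≤ (n : ℝ) / 2 ^ m := by
      have := pow_le_div (e := 0) (m := m) hn1 (by omega)
      simpa using this
    -- F
    have tF : 0.32 * ((2 : ℝ) ^ i0) ^ 3 ≤ 0.32 * ((n : ℝ) / 2 ^ m) := by
      apply mul_le_mul_of_nonneg_left _ (by norm_num)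
      rw [← pow_mul]
      exact pow_le_div hn1 (by omega)
    -- G
    have tG : √((2 : ℝ) ^ r) * (((n : ℝ) + 1) ^ 2 / n) * (6.829 / ((i0 : ℝ) * √((2 : ℝ) ^ i0))) ≤
        0.2 * ((n : ℝ) / 2 ^ m) := by
      have h1 : ((n : ℝ) + 1) ^ 2 / n ≤ 1.01 * n := by linarith
      have h2 : √((2 : ℝ) ^ r) * (((n : ℝ) + 1) ^ 2 / n) ≤
          √((2 : ℝ) ^ i0) / 2 ^ m * (1.01 * n) := by
        apply mul_le_mul hsr h1 (by positivity) (by positivity)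
      have h3 : √((2 : ℝ) ^ r) * (((n : ℝ) + 1) ^ 2 / n) *
          (6.829 / ((i0 : ℝ) * √((2 : ℝ) ^ i0))) ≤
          √((2 : ℝ) ^ i0) / 2 ^ m * (1.01 * n) * (6.829 / ((i0 : ℝ) * √((2 : ℝ) ^ i0))) :=
        mul_le_mul_of_nonneg_right h2 (by positivity)
      refine h3.trans ?_
      have e : √((2 : ℝ) ^ i0) / 2 ^ m * (1.01 * n) * (6.829 / ((i0 : ℝ) * √((2 : ℝ) ^ i0))) =
          (1.01 * 6.829 / i0) * ((n : ℝ) / 2 ^ m) := by
        field_simp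
      rw [e]
      apply mul_le_mul_of_nonneg_right _ (by positivity)
      rw [div_le_iff₀ (by linarith)]
      nlinarith
    -- H
    have tH : 2 ^ r * ((2 * (n : ℝ) + 1) / 2 * (4 / ((i0 : ℝ) * 2 ^ i0)) + (2 : ℝ) ^ i2 / 2) ≤
        0.2 * ((n : ℝ) / 2 ^ m) + (n : ℝ) / 2 ^ m := by
      have h1 : (2 : ℝ) ^ r * ((2 : ℝ) ^ i2 / 2) ≤ (n : ℝ) / 2 ^ m := by
        have e1 : (2 : ℝ) ^ r * ((2 : ℝ) ^ i2 / 2) = 2 ^ (r + 13 * l / 20) := by
          rw [hi2, pow_succ, pow_add]; ring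
        rw [e1]
        exact pow_le_div hn1 (by omega)
      have h2 : (2 : ℝ) ^ r * ((2 * (n : ℝ) + 1) / 2 * (4 / ((i0 : ℝ) * 2 ^ i0))) ≤
          0.2 * ((n : ℝ) / 2 ^ m) := by
        have h3 : (2 : ℝ) ^ r ≤ 2 ^ i0 / 2 ^ m := by
          rw [le_div_iff₀ hD, ← pow_add]
          exact pow_le_pow_right₀ (by norm_num) (by omega)
        have h4 : (2 : ℝ) ^ r * ((2 * (n : ℝ) + 1) / 2 * (4 / ((i0 : ℝ) * 2 ^ i0))) ≤
          2 ^ i0 / 2 ^ m * ((2 * (n : ℝ) + 1) / 2 * (4 / ((i0 : ℝ) * 2 ^ i0))) :=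
          mul_le_mul_of_nonneg_right h3 (by positivity)
        refine h4.trans ?_
        have e : (2 : ℝ) ^ i0 / 2 ^ m * ((2 * (n : ℝ) + 1) / 2 * (4 / ((i0 : ℝ) * 2 ^ i0))) =
          (4 * ((2 * (n : ℝ) + 1) / 2) / i0) / 2 ^ m := by
          field_simp
        rw [e]
        have h5 : 4 * ((2 * (n : ℝ) + 1) / 2) / i0 ≤ 0.2 * n := by
          rw [div_le_iff₀ (by linarith)]
          nlinarith
        calc 4 * ((2 * (n : ℝ) + 1) / 2) / i0 / 2 ^ m ≤ 0.2 * n / 2 ^ m :=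
              div_le_div_of_nonneg_right h5 (by positivity)
          _ = _ := by ring
      rw [mul_add]
      linarith
    -- J
    have tJ : (2 * (n : ℝ) + 1) / 4 * (4 / ((i0 : ℝ) * 2 ^ i0)) * (1 + (l + 3) * 0.69315) ≤
        (n : ℝ) / 2 ^ m := by
      have h1 : (1 + ((l : ℝ) + 3) * 0.69315) ≤ 4 * i0 := by
        have h2 : l + 4 ≤ 4 * i0 := by omega
        have h3 : (l : ℝ) + 4 ≤ 4 * i0 := by exact_mod_cast h2
        have h4 : (0 : ℝ) ≤ l := by positivity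
        nlinarith
      have h5 : (2 * (n : ℝ) + 1) / 4 * (4 / ((i0 : ℝ) * 2 ^ i0)) * (1 + (l + 3) * 0.69315) ≤
          (2 * (n : ℝ) + 1) / 4 * (4 / ((i0 : ℝ) * 2 ^ i0)) * (4 * i0) :=
        mul_le_mul_of_nonneg_left h1 (by positivity)
      refine h5.trans ?_
      have e : (2 * (n : ℝ) + 1) / 4 * (4 / ((i0 : ℝ) * 2 ^ i0)) * (4 * i0) =
          4 * (2 * (n : ℝ) + 1) / 2 ^ i0 := by
        field_simp
      rw [e]
      have h6 : (16 : ℝ) * 2 ^ m ≤ 2 ^ i0 := by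
        calc (16 : ℝ) * 2 ^ m = 2 ^ (m + 4) := by ring
          _ ≤ 2 ^ i0 := pow_le_pow_right₀ (by norm_num) (by omega)
      rw [div_le_div_iff₀ (by positivity) hD]
      nlinarith
    -- K
    have tK : 2 ^ r * (((n : ℝ) + 1) ^ 2 / (2 * ((2 : ℝ) ^ i2) ^ 2)) ≤ (n : ℝ) / 2 ^ m := by
      refine le_trans ?_ (pow_le_div (e := l - m) hn1 (by omega))
      rw [← mul_div_assoc, div_le_iff₀ (by positivity)]
      calc (2 : ℝ) ^ r * ((n : ℝ) + 1) ^ 2 ≤ 2 ^ r * 2 ^ (2 * l + 2) :=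
            mul_le_mul_of_nonneg_left hsqb (by positivity)
        _ = 2 ^ (r + (2 * l + 2)) := (pow_add 2 r (2 * l + 2)).symm
        _ ≤ 2 ^ (l - m + (1 + i2 * 2)) :=
            pow_le_pow_right₀ (by norm_num) (by omega)
        _ = 2 ^ (l - m) * (2 * (2 ^ i2) ^ 2) := by
            rw [pow_add, pow_add 2 1 (i2 * 2), pow_mul, pow_one]
    -- L
    have tL : n * Real.log n * b2 ≤ n * ((l + 1) * 0.69315) * b2 := by
      apply mul_le_mul_of_nonneg_right _ hb20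
      apply mul_le_mul_of_nonneg_left hlogn (by linarith)
    have tM : n * (2 * (V y * (1 - S y z))) ≤ (2 * (n : ℝ) + 1) * V y * (1 - S y z) := by
      nlinarith
    have e0 : (n : ℝ) * (2 * (V y * (1 - S y z)) - 5.72 * b15 - (l + 1) * 0.69315 * b2 -
        1.01 * b2 - 10 / 2 ^ m) = n * (2 * (V y * (1 - S y z))) - 5.72 * n * b15 -
        n * ((l + 1) * 0.69315) * b2 - 1.01 * n * b2 - 10 * (n / 2 ^ m) := by ring
    rw [e0]
    have hnD : 0 ≤ (n : ℝ) / 2 ^ m := by positivity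
    linarith

end Pool.Agent.Helper9.TC
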