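import Pool.Agent.Helper9.TC.RegC

/-!
# Large regimes and the final case for MP_1181b9_nt
-/

set_option autoImplicit false
open Finset Real

namespace Pool.Agent.Helper9.TC

lemma sqrt_15 : (181 : ℝ) ≤ √((2 : ℝ) ^ 15) := by
  apply Real.le_sqrt_of_sq_le
  norm_num

lemma sum15_15 (M : ℕ) : ∑ p ∈ primesIoc 32768 M, 1 / ((p : ℝ) * √p) ≤ 0.002516 := by
  have h := sum15_closed 15 M (by norm_num)
  have e : (2 : ℕ) ^ 15 = 32768 := by norm_num
  rw [e] at h
  refine h.trans ?_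
  have h2 : (15 * 181 : ℝ) ≤ ((15 : ℕ) : ℝ) * √((2 : ℝ) ^ 15) := by
    push_cast
    exact mul_le_mul_of_nonneg_left sqrt_15 (by norm_num)
  refine (div_le_div_of_nonneg_left (by norm_num) (by norm_num) h2).trans ?_
  norm_num

lemma b2_15 (M : ℕ) : ∑ p ∈ primesIoc 32768 M, 1 / (p : ℝ) ^ 2 ≤ 0.000008139 := by
  have h := sum2_closed 15 M (by norm_num)
  norm_num at h ⊢
  linarith

theorem regC5 (l n : ℕ) (hl : 226 ≤ l) (hl2 : l < 9917) (h1 : 2 ^ l ≤ n) (h2 : n < 2 ^ (l + 1)) :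
    TwoCyc n := by
  obtain ⟨d1, d2, d3, d4⟩ := num997
  have hV : 0.04814 ≤ V 997 * (1 - S 997 32768) := by
    have : 0.08096 * 0.59466 ≤ V 997 * (1 - S 997 32768) := by
      apply mul_le_mul d1 (by linarith) (by norm_num) (by linarith)
    refine le_trans ?_ this
    norm_num
  refine regimeC 997 32768 l n 0.002516 0.000008139 (by norm_num) (by norm_num) (by norm_num) ?_ hl
    h1 h2 (by linarith) (by norm_num) sum15_15 b2_15 ?_ ?_
  · calc (32768 : ℕ) = 2 ^ 15 := by norm_num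
      _ ≤ 2 ^ (3 * l / 10) := Nat.pow_le_pow_right (by norm_num) (by omega)
  · rw [d3, d4]
    calc (1 + ((3344 : ℕ) : ℝ)) * 2 ^ (168 - 1) ≤ 2 ^ 200 := by norm_num
      _ ≤ 2 ^ (l - l / 25) := pow_le_pow_right₀ (by norm_num) (by omega)
  · have hn : (2 : ℝ) ^ 226 ≤ n := by
      calc (2 : ℝ) ^ 226 ≤ 2 ^ l := pow_le_pow_right₀ (by norm_num) hl
        _ ≤ n := by exact_mod_cast h1
    have hnn : (1000000 : ℝ) ≤ n := le_trans (by norm_num) hn
    have key : (0.001 : ℝ) ≤ 2 * (V 997 * (1 - S 997 32768)) - 5.72 * 0.002516 -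
        (l + 1) * 0.69315 * 0.000008139 - 1.01 * 0.000008139 - 10 / 2 ^ (l / 25) := by
      rcases lt_or_ge l 1000 with h | h
      · have hm : (10 : ℝ) / 2 ^ (l / 25) ≤ 10 / 2 ^ 9 := by
          apply div_le_div_of_nonneg_left (by norm_num) (by positivity)
          exact pow_le_pow_right₀ (by norm_num) (by omega)
        have hlr : (l : ℝ) ≤ 1000 := by exact_mod_cast h.le
        norm_num at hm ⊢
        linarith
      · have hm : (10 : ℝ) / 2 ^ (l / 25) ≤ 10 / 2 ^ 40 := by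
          apply div_le_div_of_nonneg_left (by norm_num) (by positivity)
          exact pow_le_pow_right₀ (by norm_num) (by omega)
        have hlr : (l : ℝ) ≤ 9917 := by exact_mod_cast hl2.le
        norm_num at hm ⊢
        linarith
    calc (2 : ℝ) ≤ n * 0.001 := by linarith
      _ ≤ _ := mul_le_mul_of_nonneg_left key (by linarith)

lemma sq_le_two_pow (I : ℕ) (hI : 16 ≤ I) : 256 * I ^ 2 ≤ 2 ^ I := by
  induction I, hI using Nat.le_induction with
  | base => norm_num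
  | succ k hk ih =>
    rw [pow_succ 2 k]
    nlinarith

lemma sq_le_two_pow' (m : ℕ) (hm : 20 ≤ m) : 610 * m ^ 2 ≤ 2 ^ m := by
  induction m, hm using Nat.le_induction with
  | base => norm_num
  | succ k hk ih =>
    rw [pow_succ 2 k]
    nlinarith

lemma primesIoc_self (a : ℕ) : primesIoc a a = ∅ := by
  ext p
  simp only [mem_primesIoc, Finset.notMem_empty, iff_false]
  omega

lemma S_self (a : ℕ) : S a a = 0 := by
  unfold S
  rw [primesIoc_self]
  simp

theorem regC6 (l n : ℕ) (hl : 9917 ≤ l) (h1 : 2 ^ l ≤ n) (h2 : n < 2 ^ (l + 1)) : TwoCyc n := by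
  classical
  -- choice of `I`
  obtain ⟨I, hI16, hI1, hI2⟩ : ∃ I, 16 ≤ I ∧ 46 * 2 ^ I ≤ 19 * l * I ∧
      19 * l * (I + 1) < 46 * 2 ^ (I + 1) := by
    let P : ℕ → Prop := fun I => 46 * 2 ^ I ≤ 19 * l * I
    have hP16 : P 16 := by
      change 46 * 2 ^ 16 ≤ 19 * l * 16
      norm_num
      omega
    have hex : ∃ I, 16 ≤ I ∧ ¬ P (I + 1) := by
      refine ⟨l, by omega, ?_⟩
      change ¬ 46 * 2 ^ (l + 1) ≤ 19 * l * (l + 1)
      have h3 := sq_le_two_pow l (by omega)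
      rw [pow_succ]
      nlinarith
    have hspec := Nat.find_spec hex
    refine ⟨Nat.find hex, hspec.1, ?_, not_le.1 hspec.2⟩
    rcases Nat.lt_or_ge 16 (Nat.find hex) with h | h
    · have h3 := Nat.find_min hex (m := Nat.find hex - 1) (by omega)
      have h4 : P (Nat.find hex - 1 + 1) := by
        by_contra h5
        exact h3 ⟨by omega, h5⟩
      have h6 : Nat.find hex - 1 + 1 = Nat.find hex := by omega
      rw [h6] at h4
      exact h4
    · have h7 : Nat.find hex = 16 := le_antisymm h hspec.1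
      rw [h7]
      exact hP16
  have hsq := sq_le_two_pow I hI16
  -- `I` is small
  have hIl : 619 * I ≤ l := by
    have h3 : 46 * (256 * I ^ 2) ≤ 19 * l * I := le_trans (Nat.mul_le_mul_left 46 hsq) hI1
    have h4 : (46 * 256 * I) * I ≤ (19 * l) * I := by
      calc (46 * 256 * I) * I = 46 * (256 * I ^ 2) := by ring
        _ ≤ _ := h3
    have h5 := Nat.le_of_mul_le_mul_right h4 (by omega)
    omega
  have hIr : (16 : ℝ) ≤ I := by exact_mod_cast hI16
  have hI0 : (0 : ℝ) < I := by linarith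
  have hpI : (0 : ℝ) < 2 ^ I := by positivity
  have hsqr : 256 * (I : ℝ) ^ 2 ≤ 2 ^ I := by exact_mod_cast hsq
  have hsqrt : 16 * (I : ℝ) ≤ √((2 : ℝ) ^ I) := by
    apply Real.le_sqrt_of_sq_le
    nlinarith
  obtain ⟨m, hm⟩ : ∃ m, m = l / 25 := ⟨_, rfl⟩
  have hmI : 10 * I ^ 2 ≤ 2 ^ m := by
    have h3 := sq_le_two_pow' m (by omega)
    have h4 : I ≤ m := by omega
    nlinarith
  have hmIr : 10 * (I : ℝ) ^ 2 ≤ 2 ^ m := by exact_mod_cast hmI
  have hVp := V_pow I hI16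
  have hcp := card_primes_pow I hI16
  have hV2 : 21.25 / (I : ℝ) ^ 2 ≤ 2 * V (2 ^ I) := by
    have h3 : 10.625 / (I : ℝ) ^ 2 ≤ 0.0506 * 210 / (((I : ℝ) - 1) * (I - 2)) := by
      apply div_le_div₀ (by norm_num) (by norm_num)
      · apply mul_pos <;> linarith
      · nlinarith
    have e : 21.25 / (I : ℝ) ^ 2 = 2 * (10.625 / (I : ℝ) ^ 2) := by ring
    rw [e]
    linarith
  have hnr : (2 : ℝ) ^ m ≤ n := by
    calc (2 : ℝ) ^ m ≤ 2 ^ l := pow_le_pow_right₀ (by norm_num) (by omega)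
      _ ≤ n := by exact_mod_cast h1
  refine regimeC (2 ^ I) (2 ^ I) l n (6.829 / ((I : ℝ) * √((2 : ℝ) ^ I))) (4 / ((I : ℝ) * 2 ^ I))
    ?_ le_rfl ?_ (Nat.pow_le_pow_right (by norm_num) (by omega)) (by omega) h1 h2 ?_ (by positivity)
    (fun M => sum15_closed I M (by omega)) (fun M => sum2_closed I M (by omega)) ?_ ?_
  · calc 2 = 2 ^ 1 := by norm_num
      _ ≤ 2 ^ I := Nat.pow_le_pow_right (by norm_num) (by omega)
  · calc 4096 = 2 ^ 12 := by norm_num
      _ ≤ 2 ^ I := Nat.pow_le_pow_right (by norm_num) (by omega)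
  · rw [S_self]
    have : 0 ≤ 21.25 / (I : ℝ) ^ 2 := by positivity
    linarith
  · rw [primesIoc_self]
    have h3 : 20 * (primesIoc 1 (2 ^ I)).card ≤ 19 * l := by
      have h4 : 46 * (2 : ℝ) ^ I ≤ 19 * l * I := by exact_mod_cast hI1
      have h5 : 2.3 * (2 : ℝ) ^ I / I ≤ 0.95 * l := by
        rw [div_le_iff₀ hI0]
        linarith
      have h6 : (20 * ((primesIoc 1 (2 ^ I)).card : ℝ)) ≤ 19 * l := by linarith
      exact_mod_cast h6
    simp only [Finset.card_empty, Nat.cast_zero, add_zero, one_mul]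
    exact pow_le_pow_right₀ (by norm_num) (by omega)
  · rw [S_self, ← hm]
    have t2 : 5.72 * (6.829 / ((I : ℝ) * √((2 : ℝ) ^ I))) ≤ 2.45 / (I : ℝ) ^ 2 := by
      rw [← mul_div_assoc, div_le_div_iff₀ (by positivity) (by positivity)]
      have h3 : (I : ℝ) * (16 * I) ≤ I * √((2 : ℝ) ^ I) := mul_le_mul_of_nonneg_left hsqrt hI0.le
      nlinarith
    have hlr : 19 * (l : ℝ) * (I + 1) ≤ 92 * 2 ^ I := by
      have h3 : 19 * l * (I + 1) ≤ 92 * 2 ^ I := by
        have : 46 * 2 ^ (I + 1) = 92 * 2 ^ I := by ring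
        omega
      exact_mod_cast h3
    have t3 : ((l : ℝ) + 1) * 0.69315 * (4 / ((I : ℝ) * 2 ^ I)) ≤ 13.6 / (I : ℝ) ^ 2 := by
      rw [← mul_div_assoc, div_le_div_iff₀ (by positivity) (by positivity)]
      have h3 : 19 * (l : ℝ) * I ≤ 92 * 2 ^ I := by
        have : (0 : ℝ) ≤ l := by positivity
        nlinarith
      have h4 : (l : ℝ) * 0.69315 * 4 * I ≤ 13.5 * 2 ^ I := by nlinarith
      have h5 : 0.69315 * 4 * (I : ℝ) ≤ 0.1 * 2 ^ I := by nlinarith
      have h6 : ((l : ℝ) + 1) * 0.69315 * 4 * I ≤ 13.6 * 2 ^ I := by linarith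
      calc ((l : ℝ) + 1) * 0.69315 * 4 * (I : ℝ) ^ 2 = (((l : ℝ) + 1) * 0.69315 * 4 * I) * I := by
            ring
        _ ≤ (13.6 * 2 ^ I) * I := mul_le_mul_of_nonneg_right h6 hI0.le
        _ = _ := by ring
    have t4 : 1.01 * (4 / ((I : ℝ) * 2 ^ I)) ≤ 0.01 / (I : ℝ) ^ 2 := by
      rw [← mul_div_assoc, div_le_div_iff₀ (by positivity) (by positivity)]
      have h5 : 1.01 * 4 * (I : ℝ) ≤ 0.01 * 2 ^ I := by nlinarith
      calc 1.01 * 4 * (I : ℝ) ^ 2 = (1.01 * 4 * I) * I := by ring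
        _ ≤ (0.01 * 2 ^ I) * I := mul_le_mul_of_nonneg_right h5 hI0.le
        _ = _ := by ring
    have t5 : (10 : ℝ) / 2 ^ m ≤ 1 / (I : ℝ) ^ 2 := by
      rw [div_le_div_iff₀ (by positivity) (by positivity)]
      linarith
    have key : 4 / (I : ℝ) ^ 2 ≤ 2 * (V (2 ^ I) * (1 - 0)) -
        5.72 * (6.829 / ((I : ℝ) * √((2 : ℝ) ^ I))) -
        ((l : ℝ) + 1) * 0.69315 * (4 / ((I : ℝ) * 2 ^ I)) - 1.01 * (4 / ((I : ℝ) * 2 ^ I)) -
        10 / 2 ^ m := by
      have e : (21.25 : ℝ) / (I : ℝ) ^ 2 = 4 / (I : ℝ) ^ 2 + 2.45 / (I : ℝ) ^ 2 +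
          13.6 / (I : ℝ) ^ 2 + 0.01 / (I : ℝ) ^ 2 + 1 / (I : ℝ) ^ 2 + 0.19 / (I : ℝ) ^ 2 := by
        ring
      have e2 : 0 ≤ 0.19 / (I : ℝ) ^ 2 := by positivity
      linarith
    calc (2 : ℝ) ≤ n * (4 / (I : ℝ) ^ 2) := by
          rw [← mul_div_assoc, le_div_iff₀ (by positivity)]
          linarith
      _ ≤ _ := mul_le_mul_of_nonneg_left key (by positivity)

theorem large_case' (n : ℕ) (hn : 2000000 ≤ n) : TwoCyc n := by
  rcases lt_or_ge n 10000000000000000 with h | h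
  · exact regA n hn h
  · rcases lt_or_ge n (2 ^ 226) with h2 | h2
    · refine regB n (le_trans ?_ h) h2
      norm_num
    · obtain ⟨l, hl⟩ : ∃ l, l = Nat.log 2 n := ⟨_, rfl⟩
      have hn0 : n ≠ 0 := by omega
      have h3 : 2 ^ l ≤ n := by rw [hl]; exact Nat.pow_log_le_self 2 hn0
      have h4 : n < 2 ^ (l + 1) := by rw [hl]; exact Nat.lt_pow_succ_log_self (by norm_num) n
      have h5 : 226 ≤ l := by
        rw [hl]
        exact Nat.le_log_of_pow_le (by norm_num) h2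
      rcases lt_or_ge l 9917 with h6 | h6
      · exact regC5 l n h5 h6 h3 h4
      · exact regC6 l n h6 h3 h4

end Pool.Agent.Helper9.TC
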